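import Pool.Agent.V8H64.GB.Loc

set_option autoImplicit false

/-! The Gaussian law for the product of Birch and Swinnerton-Dyer over the quadratic twists of a curve. -/

namespace Pool.Agent.V8H64.GB

open Finset Filter Topology Pool.Agent.N430.CLT Pool.Agent.V8H64.GL
open Pool.Agent.R459.Bsd (TT)
open Pool.Agent.H491R4.TW (HH cc)

/-- the variance -/
noncomputable def VV (a b : ℤ) (x : ℕ) : ℝ := ∑ p ∈ PP x, (TT a p b / p) ^ 2

/-- the index type for the uniformity -/
structure Ix where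
  a : ℤ
  b : ℤ
  c : ℕ
  H : ℕ
  x : ℕ

theorem twist_gen (Q : ℕ → Prop) (R : ℕ → ℕ → ℕ → Prop)
    (hR : ∀ K K' a H : ℕ, K ≤ K' → R K' a H → R K a H) (hQ : Approx Q R) (hPos : Pos Q R)
    (σ : ℤ) (hσ : |σ| = 1) (ε : ℝ) (hε : 0 < ε) :
    ∃ K : ℕ, 1 ≤ K ∧ ∀ i : Ix, (R K i.c i.H ∧ K ≤ i.H ∧ i.x ^ K ≤ i.H ∧ (K : ℝ) ≤ VV i.a i.b i.x) →
      ∀ u : ℝ,
      |cnt (fun n => Q n ∧ ∑ p ∈ PP i.x, HH i.a i.b p (σ * n) - ∑ p ∈ PP i.x, cc i.a i.b p ≤
        u * √(VV i.a i.b i.x)) i.c i.H - Phi u * cnt Q i.c i.H| ≤ ε * cnt Q i.c i.H := by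
  classical
  refine unif (I := Ix)
    (fun i u => cnt (fun n => Q n ∧ ∑ p ∈ PP i.x, HH i.a i.b p (σ * n) - ∑ p ∈ PP i.x, cc i.a i.b p ≤
        u * √(VV i.a i.b i.x)) i.c i.H)
    (fun i => cnt Q i.c i.H)
    (fun K i => R K i.c i.H ∧ K ≤ i.H ∧ i.x ^ K ≤ i.H ∧ (K : ℝ) ≤ VV i.a i.b i.x)
    ?_ ?_ ?_ ?_ ?_ ε hε
  · rintro K K' i hKK ⟨h1, h2, h3, h4⟩
    refine ⟨hR _ _ _ _ hKK h1, hKK.trans h2, ?_, le_trans (by exact_mod_cast hKK) h4⟩
    rcases Nat.eq_zero_or_pos i.x with h0 | h0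
    · rcases Nat.eq_zero_or_pos K with h5 | h5
      · subst h5
        rw [pow_zero]
        rcases Nat.eq_zero_or_pos K' with h6 | h6
        · subst h6
          rwa [pow_zero] at h3
        · omega
      · rw [h0, zero_pow (by omega)]
        exact Nat.zero_le _
    · exact (Nat.pow_le_pow_right h0 hKK).trans h3
  · intro i u
    exact Nat.cast_nonneg _
  · intro i u
    exact cnt_mono (fun n h => h.1) _ _
  · intro i u v huv
    refine cnt_mono (fun n h => ⟨h.1, h.2.trans ?_⟩) _ _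
    gcongr
  · intro u ε hε
    obtain ⟨C, hC, hCt⟩ := total
    obtain ⟨κ, Kp, hκ, hKp⟩ := hPos
    have hPos' : Pos Q R := ⟨κ, Kp, hκ, hKp⟩
    set η : ℝ := ε / 2 with hη
    have hη0 : 0 < η := by positivity
    obtain ⟨K₁, hK₁, h₁⟩ := vec_clt Q R hR _ (cf_J Q R hR hQ σ hσ) hPos' 1 (fun _ => u + η) (ε / 4)
      (by positivity)
    obtain ⟨K₂, hK₂, h₂⟩ := vec_clt Q R hR _ (cf_J Q R hR hQ σ hσ) hPos' 1 (fun _ => u - η) (ε / 4)
      (by positivity)
    obtain ⟨K₃, hK₃⟩ := exists_nat_ge (((C + 9) / (ε / 4 * η * κ)) ^ 2)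
    refine ⟨max (max (4 * K₁) (4 * K₂)) (max K₃ Kp), by omega, fun i hi => ?_⟩
    set K := max (max (4 * K₁) (4 * K₂)) (max K₃ Kp) with hK
    obtain ⟨g1, g2, g3, g4⟩ := hi
    have k1 : 4 * K₁ ≤ K := (le_max_left _ _).trans (le_max_left _ _)
    have k2 : 4 * K₂ ≤ K := (le_max_right _ _).trans (le_max_left _ _)
    have k3 : K₃ ≤ K := (le_max_left _ _).trans (le_max_right _ _)
    have k4 : Kp ≤ K := (le_max_right _ _).trans (le_max_right _ _)
    obtain ⟨a, b, c, H, x⟩ := i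
    dsimp only at g1 g2 g3 g4 ⊢
    have hKpos : 1 ≤ K := by omega
    have hK1' : (1 : ℝ) ≤ K := by exact_mod_cast hKpos
    have hV0 : 0 < VV a b x := by linarith
    have hx : 1 ≤ x := by
      by_contra hcon
      have h0 : x = 0 := by omega
      rw [h0] at hV0
      have e : PP 0 = ∅ := by decide
      unfold VV at hV0
      rw [e, Finset.sum_empty] at hV0
      exact lt_irrefl _ hV0
    have hxH : x ≤ H := by
      calc x = x ^ 1 := (pow_one x).symm
        _ ≤ x ^ K := Nat.pow_le_pow_right hx hKpos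
        _ ≤ H := g3
    -- the weights
    set w : Fin 1 → ℕ → ℝ := fun _ p => if p.Prime then -(TT a p b / (2 * p)) else 0 with hw
    have hw1 : ∀ i p, |w i p| ≤ 1 := by
      intro i p
      rw [hw]
      dsimp only
      split_ifs with hp
      · rw [abs_neg]
        exact TT_div hp a b
      · simp
    have hwV : ∀ i, ∑ p ∈ PP x, w i p ^ 2 = VV a b x / 4 := by
      intro i
      unfold VV
      rw [Finset.sum_div]
      refine Finset.sum_congr rfl fun p hp => ?_
      rw [hw]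
      dsimp only
      rw [if_pos (mem_PP.1 hp).2]
      ring
    have hwo : ∀ i j, i ≠ j → ∑ p ∈ PP x, w i p * w j p = 0 := fun i j hij =>
      absurd (Subsingleton.elim i j) hij
    have hlow : ∀ K' : ℕ, 4 * K' ≤ K → ∀ i, (K' : ℝ) ≤ ∑ p ∈ PP x, w i p ^ 2 := by
      intro K' hK' i
      rw [hwV i, le_div_iff₀ (by norm_num)]
      refine le_trans ?_ g4
      have : ((4 * K' : ℕ) : ℝ) ≤ K := by exact_mod_cast hK'
      push_cast at this
      linarith
    have f1 := h₁ c H x w hx (hR _ _ _ _ (by omega) g1) (by omega)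
      ((Nat.pow_le_pow_right hx (by omega)).trans g3) hw1 (hlow K₁ k1) hwo
    have f2 := h₂ c H x w hx (hR _ _ _ _ (by omega) g1) (by omega)
      ((Nat.pow_le_pow_right hx (by omega)).trans g3) hw1 (hlow K₂ k2) hwo
    rw [cnt_eq, cnt_eq] at f1 f2
    -- the linear sum
    set S : ℕ → ℝ := fun n => -∑ p ∈ PP x, TT a p b * J (σ * n) p / p with hS
    have hcond : ∀ (v : ℝ) (n : ℕ), (∀ i : Fin 1, ∑ p ∈ PP x, w i p * J (σ * n) p ≤
        v * √(∑ p ∈ PP x, w i p ^ 2)) ↔ S n ≤ v * √(VV a b x) := by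
      intro v n
      have e1 : ∀ i : Fin 1, ∑ p ∈ PP x, w i p * J (σ * n) p = S n / 2 := by
        intro i
        rw [hS]
        dsimp only
        rw [neg_div, Finset.sum_div, ← Finset.sum_neg_distrib]
        refine Finset.sum_congr rfl fun p hp => ?_
        rw [hw]
        dsimp only
        rw [if_pos (mem_PP.1 hp).2]
        have hp0 : (p : ℝ) ≠ 0 := by exact_mod_cast (mem_PP.1 hp).2.pos.ne'
        field_simp
      have e2 : √(VV a b x / 4) = √(VV a b x) / 2 := by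
        rw [Real.sqrt_div hV0.le, show (4 : ℝ) = 2 ^ 2 by norm_num, Real.sqrt_sq (by norm_num)]
      constructor
      · intro h
        have h5 := h 0
        rw [e1 0, hwV 0, e2] at h5
        linarith
      · intro h i
        rw [e1 i, hwV i, e2]
        linarith
    have hprod : ∀ v : ℝ, ∏ _i : Fin 1, Phi v = Phi v := by
      intro v
      simp
    have f1' : |cnt (fun n => Q n ∧ S n ≤ (u + η) * √(VV a b x)) c H - Phi (u + η) * cnt Q c H| ≤
        ε / 4 * cnt Q c H := by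
      rw [hprod] at f1
      simp only [hcond] at f1
      exact f1
    have f2' : |cnt (fun n => Q n ∧ S n ≤ (u - η) * √(VV a b x)) c H - Phi (u - η) * cnt Q c H| ≤
        ε / 4 * cnt Q c H := by
      rw [hprod] at f2
      simp only [hcond] at f2
      exact f2
    -- the error
    set E : ℕ → ℝ := fun n => ∑ p ∈ PP x, HH a b p (σ * n) - ∑ p ∈ PP x, cc a b p - S n with hE
    have hE1 : ∑ n ∈ Ioc c (c + H), |E n| ≤ (C + 9) * H := by
      have h5 : ∀ n ∈ Ioc c (c + H), |E n| ≤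
          C + ∑ p ∈ PP x, (if (p : ℤ) ∣ σ * n then 3 / (p : ℝ) else 0) := by
        intro n _
        have h6 := hCt a b (σ * n) x
        have e : E n = ∑ p ∈ PP x, HH a b p (σ * n) - (∑ p ∈ PP x, cc a b p -
            ∑ p ∈ PP x, TT a p b * J (σ * n) p / p) := by
          rw [hE, hS]
          dsimp only
          ring
        rw [e]
        exact h6
      refine (Finset.sum_le_sum h5).trans ?_
      rw [Finset.sum_add_distrib, Finset.sum_const, Nat.card_Ioc, nsmul_eq_mul]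
      have h7 := div_avg c H x hxH σ hσ
      have h8 : ((c + H - c : ℕ) : ℝ) = H := by
        congr 1
        omega
      rw [h8]
      linarith
    have hsV : (C + 9) / (ε / 4 * η * κ) ≤ √(VV a b x) := by
      apply Real.le_sqrt_of_sq_le
      refine hK₃.trans (le_trans ?_ g4)
      exact_mod_cast k3
    have hcntκ : κ * H ≤ cnt Q c H := by
      have := hKp c H (hR _ _ _ _ k4 g1) (k4.trans g2)
      rw [cnt_eq] at this
      exact this
    have hE2 : ∑ n ∈ Ioc c (c + H), |E n| ≤ ε / 4 * (η * √(VV a b x)) * cnt Q c H := by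
      refine hE1.trans ?_
      rw [div_le_iff₀ (by positivity)] at hsV
      have hH0 : (0 : ℝ) ≤ H := Nat.cast_nonneg _
      calc (C + 9) * (H : ℝ) ≤ √(VV a b x) * (ε / 4 * η * κ) * H := by gcongr
        _ = ε / 4 * (η * √(VV a b x)) * (κ * H) := by ring
        _ ≤ _ := by gcongr
    have fin := perturb Q S E c H u η (ε / 4) (√(VV a b x)) hη0 (Real.sqrt_pos.2 hV0) f1' f2' hE2
    have e3 : 2 * (ε / 4) + η = ε := by rw [hη]; ring
    rw [e3] at fin
    have e4 : ∀ n : ℕ, S n + E n = ∑ p ∈ PP x, HH a b p (σ * n) - ∑ p ∈ PP x, cc a b p := by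
      intro n
      rw [hE]
      ring
    simp only [e4] at fin
    exact fin

end Pool.Agent.V8H64.GB
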