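import Pool.Agent.V8H64.GB.Cv
import Pool.Agent.V8H64.GB.Tw

set_option autoImplicit false

/-! Boxes of curves. -/

namespace Pool.Agent.V8H64.GB

open Finset Filter Topology Pool.Agent.N430.CLT Pool.Agent.V8H64.GL
open Pool.Agent.R459.Bsd (GG mertens)

lemma ncard_int (c : ℤ) (H : ℕ) (P : ℤ → Prop) :
    (Set.ncard {b : ℤ | c < b ∧ b ≤ c + H ∧ P b} : ℝ) = cnt (fun m => P (c + m)) 0 H := by
  classical
  rw [← cnt_eq]
  have e : {b : ℤ | c < b ∧ b ≤ c + H ∧ P b} = (fun m : ℕ => c + (m : ℤ)) ''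
      (({m ∈ Ioc 0 (0 + H) | P (c + m)} : Finset ℕ) : Set ℕ) := by
    ext b
    rw [Set.mem_image]
    constructor
    · rintro ⟨h1, h2, h3⟩
      refine ⟨(b - c).toNat, ?_, by omega⟩
      rw [Finset.mem_coe, mem_filter, mem_Ioc]
      refine ⟨by omega, ?_⟩
      rwa [show c + (((b - c).toNat : ℕ) : ℤ) = b by omega]
    · rintro ⟨m, hm, rfl⟩
      rw [Finset.mem_coe, mem_filter, mem_Ioc] at hm
      exact ⟨by omega, by omega, hm.2⟩
  rw [e, Set.ncard_image_of_injective _ (fun x y hxy => by simpa using hxy), Set.ncard_coe_finset]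

lemma ncard_pair (α c : ℤ) (A H : ℕ) (P : ℤ → ℤ → Prop) :
    (Set.ncard {z : ℤ × ℤ | (α < z.1 ∧ z.1 ≤ α + A) ∧ (c < z.2 ∧ z.2 ≤ c + H) ∧ P z.1 z.2} : ℝ) =
      ∑ j ∈ Icc 1 A, cnt (fun m => P (α + j) (c + m)) 0 H := by
  classical
  have e : {z : ℤ × ℤ | (α < z.1 ∧ z.1 ≤ α + A) ∧ (c < z.2 ∧ z.2 ≤ c + H) ∧ P z.1 z.2} =
      (fun z : ℕ × ℕ => (α + (z.1 : ℤ), c + (z.2 : ℤ))) ''
      (({z ∈ (Icc 1 A) ×ˢ (Ioc 0 (0 + H)) | P (α + z.1) (c + z.2)} : Finset (ℕ × ℕ)) : Set (ℕ × ℕ)) := by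
    ext z
    rw [Set.mem_image]
    constructor
    · rintro ⟨h1, h2, h3⟩
      refine ⟨((z.1 - α).toNat, (z.2 - c).toNat), ?_, ?_⟩
      · rw [Finset.mem_coe, mem_filter, mem_product, mem_Ioc, mem_Icc]
        dsimp only
        refine ⟨⟨by omega, by omega⟩, ?_⟩
        rwa [show c + (((z.2 - c).toNat : ℕ) : ℤ) = z.2 by omega,
          show α + (((z.1 - α).toNat : ℕ) : ℤ) = z.1 by omega]
      · apply Prod.ext
        · change α + (((z.1 - α).toNat : ℕ) : ℤ) = z.1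
          omega
        · change c + (((z.2 - c).toNat : ℕ) : ℤ) = z.2
          omega
    · rintro ⟨w, hw, rfl⟩
      rw [Finset.mem_coe, mem_filter, mem_product, mem_Ioc, mem_Icc] at hw
      refine ⟨?_, ?_, hw.2⟩
      · change α < α + (w.1 : ℤ) ∧ α + (w.1 : ℤ) ≤ α + A
        omega
      · change c < c + (w.2 : ℤ) ∧ c + (w.2 : ℤ) ≤ c + H
        omega
  rw [e, Set.ncard_image_of_injective _ (fun x y hxy => by
    have h1 := congrArg Prod.fst hxy
    have h2 := congrArg Prod.snd hxy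
    simp only at h1 h2
    exact Prod.ext (by omega) (by omega)), Set.ncard_coe_finset, Finset.card_filter,
    Finset.sum_product]
  push_cast
  refine Finset.sum_congr rfl fun j _ => ?_
  rw [← cnt_eq, Finset.card_filter]
  push_cast
  rfl

/-- the average of the sum over the prime divisors -/
lemma rec_avg : ∃ C : ℝ, 0 < C ∧ ∀ (α : ℤ) (A x : ℕ), 3 ≤ x → Real.log (Real.log x) ≤ A →
    ∑ j ∈ Icc 1 A, rec (α + j) x ≤ C * (A + 1) := by
  classical
  obtain ⟨K, hK, hm⟩ := mertens 0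
  refine ⟨3 + K, by positivity, fun α A x hx hL => ?_⟩
  unfold rec
  rw [Finset.sum_comm]
  have h : ∀ p ∈ PP x, ∑ j ∈ Icc 1 A, (if (p : ℤ) ∣ α + j then 1 / (p : ℝ) else 0) ≤
      A * ((p : ℝ) ^ 2)⁻¹ + 1 / p := by
    intro p hp
    have hpp := (mem_PP.1 hp).2
    have hp0 : (0 : ℝ) < p := by exact_mod_cast hpp.pos
    rw [← Finset.sum_filter, Finset.sum_const, nsmul_eq_mul]
    have h1 : (((Icc 1 A).filter (fun j : ℕ => (p : ℤ) ∣ α + (j : ℤ))).card : ℝ) ≤ A / p + 1 := by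
      set β := (α % p).toNat with hβ
      have h2 : ∀ j : ℕ, ((p : ℤ) ∣ α + j ↔ p ∣ β + j) := by
        intro j
        have hpz : (0 : ℤ) < p := by exact_mod_cast hpp.pos
        have h3 : ((β : ℕ) : ℤ) = α % p := Int.toNat_of_nonneg (Int.emod_nonneg _ hpz.ne')
        have h4 : (p ∣ β + j) ↔ ((p : ℤ) ∣ ((β + j : ℕ) : ℤ)) := Int.natCast_dvd_natCast.symm
        rw [h4]
        push_cast
        rw [h3]
        have h5 : α + j = (α % p + j) + p * (α / p) := by
          have := Int.emod_add_mul_ediv α p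
          linarith
        rw [h5]
        exact ⟨fun h => (dvd_add_left (Dvd.intro _ rfl)).1 h, fun h => (dvd_add_left (Dvd.intro _ rfl)).2 h⟩
      have h3 : (((Icc 1 A).filter (fun j : ℕ => (p : ℤ) ∣ α + (j : ℤ))).card : ℝ) =
          (#{n ∈ Ioc β (β + A) | p ∣ n} : ℝ) := by
        rw [cnt_eq (fun n => p ∣ n) β A, cnt_shift, ← cnt_eq]
        congr 2
        ext j
        rw [mem_filter, mem_filter, mem_Icc, mem_Ioc, h2]
        refine and_congr (by omega) Iff.rfl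
      rw [h3]
      exact card_dvd β A p hpp.pos
    calc (((Icc 1 A).filter (fun j : ℕ => (p : ℤ) ∣ α + (j : ℤ))).card : ℝ) * (1 / p) ≤ (A / p + 1) * (1 / p) := by gcongr
      _ = _ := by field_simp
  refine (Finset.sum_le_sum h).trans ?_
  rw [Finset.sum_add_distrib, ← Finset.mul_sum]
  have h1 : ∑ p ∈ PP x, ((p : ℝ) ^ 2)⁻¹ ≤ 2 := by
    have h2 : PP x ⊆ insert 1 (Ioc 1 x) := by
      intro p hp
      rw [mem_PP] at hp
      rw [mem_insert, mem_Ioc]
      exact Or.inr ⟨hp.2.one_lt, hp.1⟩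
    refine (Finset.sum_le_sum_of_subset_of_nonneg h2 fun _ _ _ => by positivity).trans ?_
    rw [Finset.sum_insert (by simp)]
    have h5 := sum_Ioc_inv_sq_le_sub (α := ℝ) one_ne_zero (show 1 ≤ x by omega)
    have : (0 : ℝ) ≤ (x : ℝ)⁻¹ := by positivity
    norm_num at h5 ⊢
    linarith
  have h2 : ∑ p ∈ PP x, (1 : ℝ) / p ≤ A + K := by
    have h3 := (abs_le.1 (hm x hx)).2
    have h4 : (Pool.Agent.R459.Eq.pri x).filter (fun p => ¬ p < 0) = PP x := by
      ext p
      rw [mem_filter, Pool.Agent.R459.Eq.mem_pri, mem_PP]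
      simp
    rw [h4] at h3
    linarith
  have h3 : (A : ℝ) * ∑ p ∈ PP x, ((p : ℝ) ^ 2)⁻¹ ≤ A * 2 := by gcongr
  have hA0 : (0 : ℝ) ≤ A := Nat.cast_nonneg _
  nlinarith

/-- **The Gaussian law for all curves in a box** -/
theorem box (ε : ℝ) (hε : 0 < ε) : ∃ K : ℕ, 1 ≤ K ∧ ∀ (α c : ℤ) (A H x : ℕ),
    (K : ℝ) ≤ Real.log (Real.log x) → Real.log (Real.log x) ≤ A → x ^ K ≤ H → ∀ u : ℝ,
    |∑ j ∈ Icc 1 A, cnt (fun m => ∑ p ∈ PP x, GG (α + j) p (c + m) - Real.log (Real.log x) / 2 ≤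
      u * √(Real.log (Real.log x))) 0 H - Phi u * (A * H)| ≤ ε * (A * H) := by
  classical
  obtain ⟨C, hC, hCr⟩ := rec_avg
  set M : ℝ := 4 * C / ε with hM
  have hM0 : 0 < M := by positivity
  obtain ⟨K, hK1, hK⟩ := curve_gen M hM0.le (ε / 2) (by positivity)
  refine ⟨max K 3, by omega, fun α c A H x h1 h2 h3 u => ?_⟩
  have hK3 : (3 : ℝ) ≤ Real.log (Real.log x) := le_trans (by exact_mod_cast le_max_right K 3) h1
  have hKK : (K : ℝ) ≤ Real.log (Real.log x) := le_trans (by exact_mod_cast le_max_left K 3) h1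
  have hx3 : 3 ≤ x := by
    by_contra hcon
    have h2 : x = 0 ∨ x = 1 ∨ x = 2 := by omega
    rcases h2 with h2 | h2 | h2
    · rw [h2] at hK3
      simp at hK3
      linarith
    · rw [h2] at hK3
      simp at hK3
      linarith
    · rw [h2] at hK3
      push_cast at hK3
      have h3 : Real.log (Real.log 2) ≤ 0 := by
        apply Real.log_nonpos (Real.log_nonneg (by norm_num))
        have := Real.log_two_lt_d9
        linarith
      linarith
  have hA1 : (1 : ℝ) ≤ A := by linarith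
  have hxK : x ^ K ≤ H := (Nat.pow_le_pow_right (by omega) (le_max_left _ _)).trans h3
  have hKH : K ≤ H := by
    have : K < x ^ K := Nat.lt_pow_self (by omega)
    omega
  have hH0 : (0 : ℝ) ≤ H := Nat.cast_nonneg _
  -- each a
  set F : ℕ → ℝ := fun j => cnt (fun m => ∑ p ∈ PP x, GG (α + j) p (c + m) -
    Real.log (Real.log x) / 2 ≤ u * √(Real.log (Real.log x))) 0 H with hF
  have hF0 : ∀ j, 0 ≤ F j := fun j => Nat.cast_nonneg _
  have hF1 : ∀ j, F j ≤ H := by
    intro j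
    have : cnt (fun _ => True) 0 H = H := by
      unfold cnt
      simp
    rw [← this]
    exact cnt_mono (fun n _ => trivial) _ _
  have hj : ∀ j ∈ Icc 1 A, |F j - Phi u * H| ≤ ε / 2 * H + (rec (α + j) x / M) * H := by
    intro j _
    have hr0 := rec_nonneg (α + j) x
    by_cases hr : rec (α + j) x ≤ M
    · have h5 := hK ⟨α + j, c, H, x⟩ ⟨hKH, hxK, hKK, hr⟩ u
      have h6 : 0 ≤ (rec (α + j) x / M) * H := by positivity
      refine h5.trans ?_
      dsimp only
      linarith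
    · have h6 : 1 ≤ rec (α + j) x / M := by
        rw [le_div_iff₀ hM0, one_mul]
        exact (not_le.1 hr).le
      have h7 : 1 * (H : ℝ) ≤ rec (α + j) x / M * H := by gcongr
      have h8 := Phi_nonneg u
      have h9 := Phi_le_one u
      have h10 : Phi u * H ≤ 1 * H := by gcongr
      have h11 : 0 ≤ Phi u * H := by positivity
      have h12 := hF0 j
      have h13 := hF1 j
      have h14 : 0 ≤ ε / 2 * (H : ℝ) := by positivity
      rw [abs_le]
      constructor <;> linarith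
  have e : ∑ j ∈ Icc 1 A, F j - Phi u * (A * H) = ∑ j ∈ Icc 1 A, (F j - Phi u * H) := by
    rw [Finset.sum_sub_distrib, Finset.sum_const, Nat.card_Icc, Nat.add_sub_cancel, nsmul_eq_mul]
    ring
  rw [e]
  refine (Finset.abs_sum_le_sum_abs _ _).trans ((Finset.sum_le_sum hj).trans ?_)
  rw [Finset.sum_add_distrib, Finset.sum_const, Nat.card_Icc, Nat.add_sub_cancel, nsmul_eq_mul,
    ← Finset.sum_mul, ← Finset.sum_div]
  have h5 := hCr α A x hx3 h2
  have h6 : (∑ j ∈ Icc 1 A, rec (α + j) x) / M ≤ ε / 2 * A := by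
    rw [div_le_iff₀ hM0]
    refine h5.trans ?_
    have e2 : ε / 2 * A * M = C * (2 * A) := by
      rw [hM]
      field_simp
      ring
    rw [e2]
    apply mul_le_mul_of_nonneg_left _ hC.le
    linarith
  have h7 : (∑ j ∈ Icc 1 A, rec (α + j) x) / M * H ≤ ε / 2 * A * H := by gcongr
  calc (A : ℝ) * (ε / 2 * H) + (∑ j ∈ Icc 1 A, rec (α + j) x) / M * H
      ≤ A * (ε / 2 * H) + ε / 2 * A * H := by linarith
    _ = ε * (A * H) := by ring

end Pool.Agent.V8H64.GB
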