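import Pool.Agent.V8H64.GB.Mv
import Pool.Agent.R459.Bsd3

set_option autoImplicit false

/-! The Gaussian law for the product of Birch and Swinnerton-Dyer over all curves. -/

namespace Pool.Agent.V8H64.GB

open Finset Filter Topology Pool.Agent.N430.CLT Pool.Agent.V8H64.GL
open Pool.Agent.R459.Eq (mean Per)
open Pool.Agent.R459.Bsd (GG GG_abs GG_per GG_crude sum_p32 mean_GG mertens)

/-- the data for the central limit theorem -/
noncomputable def cdat (a c : ℤ) : Dat where
  X p m := if p < 29 then 0 else (GG a p (c + m) - mean p (GG a p)) / 12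
  per p _ m := by
    split_ifs
    · rfl
    · congr 2
      apply GG_per a p
      push_cast
      ring_nf
      exact dvd_refl _
  bd p hp m := by
    split_ifs with h
    · simp
    · have hp29 : 29 ≤ p := by omega
      have h1 := GG_abs hp hp29 a (c + m)
      have h2 := mean_le hp hp29 a
      have hp0 : (29 : ℝ) ≤ p := by exact_mod_cast hp29
      have hs : (1 : ℝ) ≤ √p := by rw [Real.one_le_sqrt]; linarith
      have h3 : 6 / √(p : ℝ) ≤ 6 := div_le_self (by norm_num) hs
      have h4 : 21 / (p : ℝ) ≤ 1 := by rw [div_le_one (by linarith)]; linarith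
      rw [abs_div, abs_of_pos (show (0 : ℝ) < 12 by norm_num), div_le_one (by norm_num)]
      exact (abs_sub _ _).trans (by linarith)
  mean p hp := by
    by_cases h : p < 29
    · simp only [h, if_true]
      unfold avgP
      simp
    · simp only [h, if_false]
      have hp0 : (p : ℝ) ≠ 0 := by exact_mod_cast hp.pos.ne'
      unfold avgP
      rw [← Finset.sum_div, Finset.sum_sub_distrib, sum_shift hp _ (GG_per a p) c, Finset.sum_const,
        card_range, nsmul_eq_mul]
      unfold mean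
      field_simp
      simp

lemma cdat_v {p : ℕ} (hp : p.Prime) (h : 29 ≤ p) (a c : ℤ) :
    144 * (cdat a c).v p = mean p (fun t => GG a p t ^ 2) - mean p (GG a p) ^ 2 := by
  have hp0 : (p : ℝ) ≠ 0 := by exact_mod_cast hp.pos.ne'
  have hX : ∀ m, (cdat a c).X p m = (GG a p (c + m) - mean p (GG a p)) / 12 := by
    intro m
    change (if p < 29 then 0 else (GG a p (c + m) - mean p (GG a p)) / 12) = _
    rw [if_neg (by omega)]
  unfold Dat.v avgP
  simp only [hX]
  have e : ∀ m ∈ range p, ((GG a p (c + m) - mean p (GG a p)) / 12) ^ 2 =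
      GG a p (c + m) ^ 2 / 144 - 2 * mean p (GG a p) / 144 * GG a p (c + m) +
        mean p (GG a p) ^ 2 / 144 := by
    intro m _
    ring
  rw [Finset.sum_congr rfl e, Finset.sum_add_distrib, Finset.sum_sub_distrib, ← Finset.sum_div,
    ← Finset.mul_sum, Finset.sum_const, card_range, nsmul_eq_mul,
    sum_shift hp (fun t => GG a p t ^ 2) (fun m n hmn => by
      change GG a p m ^ 2 = GG a p n ^ 2
      rw [GG_per a p m n hmn]) c, sum_shift hp _ (GG_per a p) c]
  have e1 : ∑ t ∈ range p, GG a p (t : ℤ) = p * mean p (GG a p) := by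
    unfold mean
    field_simp
  have e2 : ∑ t ∈ range p, GG a p (t : ℤ) ^ 2 = p * mean p (fun t => GG a p t ^ 2) := by
    unfold mean
    field_simp
  rw [e1, e2]
  field_simp
  ring

open Classical in
/-- the sum of the reciprocals of the prime divisors -/
noncomputable def rec (a : ℤ) (x : ℕ) : ℝ := ∑ p ∈ PP x, (if (p : ℤ) ∣ a then 1 / (p : ℝ) else 0)

lemma rec_nonneg (a : ℤ) (x : ℕ) : 0 ≤ rec a x := by
  unfold rec
  exact Finset.sum_nonneg fun p _ => by split_ifs <;> positivity

/-- the asymptotics of variance and mean -/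
lemma consts : ∃ C : ℝ, 0 ≤ C ∧ ∀ (a c : ℤ) (x : ℕ), 3 ≤ x →
    |144 * (cdat a c).V x - Real.log (Real.log x)| ≤ C + 36 * rec a x ∧
    ∀ m : ℕ, |∑ p ∈ PP x, GG a p (c + m) - Real.log (Real.log x) / 2 - 12 * (cdat a c).S x m| ≤
      C + 36 * rec a x := by
  classical
  obtain ⟨K₁, hK₁, hm⟩ := mertens 29
  obtain ⟨K₂, hK₂, hp32⟩ := sum_p32
  refine ⟨K₁ + 585 * K₂ + 29 * 784, by positivity, fun a c x hx => ?_⟩
  set P := (PP x).filter (fun p => ¬ p < 29) with hP
  have hPm : ∀ p ∈ P, p.Prime ∧ 29 ≤ p := by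
    intro p hp
    rw [hP, mem_filter, mem_PP] at hp
    exact ⟨hp.1.2, by omega⟩
  have hmx : |∑ p ∈ P, (1 : ℝ) / p - Real.log (Real.log x)| ≤ K₁ := hm x hx
  have h32 := hp32 P
  have hrec : ∑ p ∈ P, (if (p : ℤ) ∣ a then 1 / (p : ℝ) else 0) ≤ rec a x := by
    unfold rec
    refine (Finset.sum_le_sum_of_subset_of_nonneg (Finset.filter_subset _ _) fun p _ _ => ?_)
    split_ifs <;> positivity
  have hrec0 := rec_nonneg a x
  constructor
  · have hV : 144 * (cdat a c).V x = ∑ p ∈ P, (mean p (fun t => GG a p t ^ 2) - mean p (GG a p) ^ 2) := by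
      unfold Dat.V
      rw [Finset.mul_sum, ← Finset.sum_filter_add_sum_filter_not (PP x) (fun p => p < 29)]
      have h0 : ∑ p ∈ PP x with p < 29, 144 * (cdat a c).v p = 0 := by
        apply Finset.sum_eq_zero
        intro p hp
        rw [mem_filter] at hp
        have hX : ∀ m, (cdat a c).X p m = 0 := by
          intro m
          change (if p < 29 then 0 else (GG a p (c + m) - mean p (GG a p)) / 12) = _
          rw [if_pos hp.2]
        unfold Dat.v avgP
        simp [hX]
      rw [h0, zero_add]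
      refine Finset.sum_congr rfl fun p hp => ?_
      exact cdat_v (hPm p hp).1 (hPm p hp).2 a c
    have hterm : ∀ p ∈ P, |(mean p (fun t => GG a p t ^ 2) - mean p (GG a p) ^ 2) - 1 / (p : ℝ)| ≤
        585 * (1 / ((p : ℝ) * √p)) + 36 * (if (p : ℤ) ∣ a then 1 / (p : ℝ) else 0) := by
      intro p hp
      obtain ⟨hpp, hp29⟩ := hPm p hp
      have hp0 : (0 : ℝ) < p := by exact_mod_cast hpp.pos
      have hp1 : (1 : ℝ) ≤ p := by exact_mod_cast hpp.one_le
      have hs0 : 0 < √(p : ℝ) := Real.sqrt_pos.2 hp0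
      have hss : √(p : ℝ) * √(p : ℝ) = p := Real.mul_self_sqrt hp0.le
      have hs1 : 1 ≤ √(p : ℝ) := by rw [Real.one_le_sqrt]; exact hp1
      have hsp : √(p : ℝ) ≤ p := by nlinarith
      have hμ : mean p (GG a p) ^ 2 ≤ 441 * (1 / ((p : ℝ) * √p)) := by
        rw [← sq_abs]
        calc |mean p (GG a p)| ^ 2 ≤ (21 / p) ^ 2 :=
              pow_le_pow_left₀ (abs_nonneg _) (mean_le hpp hp29 a) 2
          _ = 441 * (1 / ((p : ℝ) * p)) := by field_simp; norm_num
          _ ≤ 441 * (1 / ((p : ℝ) * √p)) := by gcongr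
      have hμ0 : 0 ≤ mean p (GG a p) ^ 2 := sq_nonneg _
      have e : (mean p (fun t => GG a p t ^ 2) - mean p (GG a p) ^ 2) - 1 / (p : ℝ) =
          (mean p (fun t => GG a p t ^ 2) - 1 / p) - mean p (GG a p) ^ 2 := by ring
      rw [e]
      refine (abs_sub _ _).trans ?_
      rw [abs_of_nonneg hμ0]
      by_cases ha : (p : ℤ) ∣ a
      · rw [if_pos ha]
        obtain ⟨h1, h2⟩ := sq_le' hpp hp29 a
        have h3 : |mean p (fun t => GG a p t ^ 2) - 1 / (p : ℝ)| ≤ 36 * (1 / p) := by
          rw [abs_le]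
          have h4 : 36 / (p : ℝ) = 36 * (1 / p) := by ring
          have h5 : 0 < 1 / (p : ℝ) := by positivity
          constructor <;> linarith
        have h6 : 0 ≤ 1 / ((p : ℝ) * √p) := by positivity
        linarith
      · rw [if_neg ha]
        have h3 := sq_eq hpp hp29 a ha
        linarith
    rw [hV]
    have e : ∑ p ∈ P, (mean p (fun t => GG a p t ^ 2) - mean p (GG a p) ^ 2) - Real.log (Real.log x) =
        ∑ p ∈ P, ((mean p (fun t => GG a p t ^ 2) - mean p (GG a p) ^ 2) - 1 / (p : ℝ)) +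
          (∑ p ∈ P, (1 : ℝ) / p - Real.log (Real.log x)) := by
      simp only [Finset.sum_sub_distrib]
      ring
    rw [e]
    refine (abs_add_le _ _).trans ?_
    have h1 : |∑ p ∈ P, ((mean p (fun t => GG a p t ^ 2) - mean p (GG a p) ^ 2) - 1 / (p : ℝ))| ≤
        585 * K₂ + 36 * rec a x := by
      refine (Finset.abs_sum_le_sum_abs _ _).trans ((Finset.sum_le_sum hterm).trans ?_)
      rw [Finset.sum_add_distrib, ← Finset.mul_sum, ← Finset.mul_sum]
      linarith
    linarith
  · intro m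
    have hS : 12 * (cdat a c).S x m = ∑ p ∈ P, (GG a p (c + m) - mean p (GG a p)) := by
      unfold Dat.S
      rw [Finset.mul_sum, ← Finset.sum_filter_add_sum_filter_not (PP x) (fun p => p < 29)]
      have h0 : ∑ p ∈ PP x with p < 29, 12 * (cdat a c).X p m = 0 := by
        apply Finset.sum_eq_zero
        intro p hp
        rw [mem_filter] at hp
        change 12 * (if p < 29 then 0 else (GG a p (c + m) - mean p (GG a p)) / 12) = _
        rw [if_pos hp.2, mul_zero]
      rw [h0, zero_add]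
      refine Finset.sum_congr rfl fun p hp => ?_
      have := (hPm p hp).2
      change 12 * (if p < 29 then 0 else (GG a p (c + m) - mean p (GG a p)) / 12) = _
      rw [if_neg (by omega)]
      ring
    have hsplit : ∑ p ∈ PP x, GG a p (c + m) = ∑ p ∈ PP x with p < 29, GG a p (c + m) +
        ∑ p ∈ P, GG a p (c + m) := (Finset.sum_filter_add_sum_filter_not (PP x) (fun p => p < 29) _).symm
    have hsmall : |∑ p ∈ PP x with p < 29, GG a p (c + m)| ≤ 29 * 784 := by
      refine (Finset.abs_sum_le_sum_abs _ _).trans ?_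
      have h1 : ∀ p ∈ {p ∈ PP x | p < 29}, |GG a p (c + m)| ≤ 784 := by
        intro p hp
        rw [mem_filter, mem_PP] at hp
        refine (GG_crude hp.1.2 a (c + m)).trans ?_
        have h6 : (p : ℝ) ≤ 28 := by exact_mod_cast (by omega : p ≤ 28)
        calc (p : ℝ) ^ 2 ≤ 28 ^ 2 := by gcongr
          _ = 784 := by norm_num
      refine (Finset.sum_le_sum h1).trans ?_
      rw [Finset.sum_const, nsmul_eq_mul]
      have : #{p ∈ PP x | p < 29} ≤ 29 := by
        have h3 : {p ∈ PP x | p < 29} ⊆ range 29 := by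
          intro p hp
          rw [mem_filter] at hp
          exact mem_range.2 hp.2
        exact (card_le_card h3).trans (by simp)
      have h4 : (#{p ∈ PP x | p < 29} : ℝ) ≤ 29 := by exact_mod_cast this
      gcongr
    have hterm : ∀ p ∈ P, |mean p (GG a p) - 1 / (p : ℝ) / 2| ≤
        68 * (1 / ((p : ℝ) * √p)) + 22 * (if (p : ℤ) ∣ a then 1 / (p : ℝ) else 0) := by
      intro p hp
      obtain ⟨hpp, hp29⟩ := hPm p hp
      have hp0 : (0 : ℝ) < p := by exact_mod_cast hpp.pos
      by_cases ha : (p : ℤ) ∣ a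
      · rw [if_pos ha]
        have h1 := mean_le hpp hp29 a
        refine (abs_sub _ _).trans ?_
        rw [abs_of_pos (show 0 < 1 / (p : ℝ) / 2 by positivity)]
        have h2 : 21 / (p : ℝ) = 21 * (1 / p) := by ring
        have h3 : 0 < 1 / (p : ℝ) := by positivity
        have h6 : 0 ≤ 1 / ((p : ℝ) * √p) := by positivity
        linarith
      · rw [if_neg ha, mul_zero, add_zero]
        have h1 := mean_GG hpp hp29 a ha
        have e1 : 1 / (p : ℝ) / 2 = 1 / (2 * p) := by rw [div_div, mul_comm]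
        rw [e1]
        refine h1.trans (le_of_eq (by ring))
    have e : ∑ p ∈ PP x, GG a p (c + m) - Real.log (Real.log x) / 2 - 12 * (cdat a c).S x m =
        ∑ p ∈ PP x with p < 29, GG a p (c + m) + (∑ p ∈ P, (mean p (GG a p) - 1 / (p : ℝ) / 2) +
          (∑ p ∈ P, (1 : ℝ) / p - Real.log (Real.log x)) / 2) := by
      rw [hS, hsplit]
      simp only [Finset.sum_sub_distrib, ← Finset.sum_div]
      ring
    rw [e]
    refine (abs_add_le _ _).trans ?_
    have h1 : |∑ p ∈ P, (mean p (GG a p) - 1 / (p : ℝ) / 2)| ≤ 68 * K₂ + 22 * rec a x := by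
      refine (Finset.abs_sum_le_sum_abs _ _).trans ((Finset.sum_le_sum hterm).trans ?_)
      rw [Finset.sum_add_distrib, ← Finset.mul_sum, ← Finset.mul_sum]
      linarith
    have h2 := abs_add_le (∑ p ∈ P, (mean p (GG a p) - 1 / (p : ℝ) / 2))
      ((∑ p ∈ P, (1 : ℝ) / p - Real.log (Real.log x)) / 2)
    have h3 : |(∑ p ∈ P, (1 : ℝ) / p - Real.log (Real.log x)) / 2| ≤ K₁ := by
      rw [abs_div, abs_two]
      linarith
    linarith

/-- the index type for the uniformity -/
structure Iy where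
  a : ℤ
  c : ℤ
  H : ℕ
  x : ℕ

/-- **The Gaussian law over the second coefficient** -/
theorem curve_gen (M : ℝ) (hM : 0 ≤ M) (ε : ℝ) (hε : 0 < ε) :
    ∃ K : ℕ, 1 ≤ K ∧ ∀ i : Iy, (K ≤ i.H ∧ i.x ^ K ≤ i.H ∧ (K : ℝ) ≤ Real.log (Real.log i.x) ∧
      rec i.a i.x ≤ M) → ∀ u : ℝ,
      |cnt (fun m => ∑ p ∈ PP i.x, GG i.a p (i.c + m) - Real.log (Real.log i.x) / 2 ≤
        u * √(Real.log (Real.log i.x))) 0 i.H - Phi u * i.H| ≤ ε * i.H := by
  classical
  have hcnt : ∀ H : ℕ, cnt (fun _ => True) 0 H = H := by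
    intro H
    unfold cnt
    simp
  have hbig : ∀ (K x : ℕ), 1 ≤ K → (K : ℝ) ≤ Real.log (Real.log x) → 3 ≤ x := by
    intro K x hK h
    by_contra hcon
    have h1 : (1 : ℝ) ≤ K := by exact_mod_cast hK
    have h2 : x = 0 ∨ x = 1 ∨ x = 2 := by omega
    rcases h2 with h2 | h2 | h2
    · rw [h2] at h
      simp at h
      linarith
    · rw [h2] at h
      simp at h
      linarith
    · rw [h2] at h
      push_cast at h
      have h3 : Real.log (Real.log 2) ≤ 0 := by
        apply Real.log_nonpos (Real.log_nonneg (by norm_num))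
        have := Real.log_two_lt_d9
        linarith
      linarith
  refine unif (I := Iy)
    (fun i u => cnt (fun m => ∑ p ∈ PP i.x, GG i.a p (i.c + m) - Real.log (Real.log i.x) / 2 ≤
        u * √(Real.log (Real.log i.x))) 0 i.H)
    (fun i => (i.H : ℝ))
    (fun K i => K ≤ i.H ∧ i.x ^ K ≤ i.H ∧ (K : ℝ) ≤ Real.log (Real.log i.x) ∧ rec i.a i.x ≤ M)
    ?_ ?_ ?_ ?_ ?_ ε hε
  · rintro K K' i hKK ⟨h1, h2, h3, h4⟩
    refine ⟨hKK.trans h1, ?_, le_trans (by exact_mod_cast hKK) h3, h4⟩
    rcases Nat.eq_zero_or_pos i.x with h0 | h0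
    · rcases Nat.eq_zero_or_pos K with h5 | h5
      · subst h5
        rw [pow_zero]
        rcases Nat.eq_zero_or_pos K' with h6 | h6
        · subst h6
          rwa [pow_zero] at h2
        · omega
      · rw [h0, zero_pow (by omega)]
        exact Nat.zero_le _
    · exact (Nat.pow_le_pow_right h0 hKK).trans h2
  · intro i u
    exact Nat.cast_nonneg _
  · intro i u
    rw [← hcnt i.H]
    exact cnt_mono (fun n _ => trivial) _ _
  · intro i u v huv
    refine cnt_mono (fun n h => h.trans ?_) _ _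
    gcongr
  · intro u ε hε
    obtain ⟨C, hC, hCt⟩ := consts
    set η : ℝ := ε / 2 with hη
    have hη0 : 0 < η := by positivity
    obtain ⟨K₁, hK₁, h₁⟩ := dat_clt (u + η) (ε / 2) (by positivity)
    obtain ⟨K₂, hK₂, h₂⟩ := dat_clt (u - η) (ε / 2) (by positivity)
    set D : ℝ := C + 36 * M with hD
    have hD0 : 0 ≤ D := by positivity
    obtain ⟨K₃, hK₃⟩ := exists_nat_ge (144 * (max (K₁ : ℝ) K₂) + D + ((|u| + 1) * D / η) ^ 2 + 1)
    refine ⟨max (max K₁ K₂) K₃, hK₁.trans ((le_max_left _ _).trans (le_max_left _ _)), fun i hi => ?_⟩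
    set K := max (max K₁ K₂) K₃ with hK
    obtain ⟨a, c, H, x⟩ := i
    obtain ⟨g2, g3, g4, g5⟩ := hi
    dsimp only at g2 g3 g4 g5 ⊢
    have k1 : K₁ ≤ K := (le_max_left _ _).trans (le_max_left _ _)
    have k2 : K₂ ≤ K := (le_max_right _ _).trans (le_max_left _ _)
    have k3 : K₃ ≤ K := le_max_right _ _
    have hx3 : 3 ≤ x := hbig K x (by omega) g4
    obtain ⟨c1, c2⟩ := hCt a c x hx3
    set d := cdat a c with hd
    set L := Real.log (Real.log x) with hL
    have k3' : (K₃ : ℝ) ≤ K := by exact_mod_cast k3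
    have hLbig : 144 * (max (K₁ : ℝ) K₂) + D + ((|u| + 1) * D / η) ^ 2 + 1 ≤ L := hK₃.trans (k3'.trans g4)
    have hmax0 : (0 : ℝ) ≤ max (K₁ : ℝ) K₂ := le_max_of_le_left (Nat.cast_nonneg _)
    have hsq0 : 0 ≤ ((|u| + 1) * D / η) ^ 2 := sq_nonneg _
    have c1' : |144 * d.V x - L| ≤ D := c1.trans (by linarith)
    have c2' : ∀ m : ℕ, |∑ p ∈ PP x, GG a p (c + m) - L / 2 - 12 * d.S x m| ≤ D :=
      fun m => (c2 m).trans (by linarith)
    have hV144 : L - D ≤ 144 * d.V x := by
      have := (abs_le.1 c1').1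
      linarith
    have hVmax : max (K₁ : ℝ) K₂ ≤ d.V x := by linarith
    have hV0 : 0 < d.V x := by linarith
    have hL1 : 1 ≤ L := by linarith
    -- the square roots
    set σ := 12 * √(d.V x) with hσ
    have hσ2 : σ ^ 2 = 144 * d.V x := by
      rw [hσ, mul_pow, Real.sq_sqrt hV0.le]
      norm_num
    have hσ0 : 0 < σ := by positivity
    have hL0 : 0 ≤ √L := Real.sqrt_nonneg _
    have hLs : √L ^ 2 = L := Real.sq_sqrt (by linarith)
    have hL1' : 1 ≤ √L := Real.one_le_sqrt.2 hL1
    have hdiff : |√L - σ| ≤ D := by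
      have e : (√L - σ) * (√L + σ) = L - 144 * d.V x := by
        have e0 : (√L - σ) * (√L + σ) = √L ^ 2 - σ ^ 2 := by ring
        rw [e0, hLs, hσ2]
      have h1 : |√L - σ| * (√L + σ) = |144 * d.V x - L| := by
        rw [abs_sub_comm (144 * d.V x), ← e, abs_mul, abs_of_pos (show 0 < √L + σ by linarith)]
      have h2 : |√L - σ| * 1 ≤ |√L - σ| * (√L + σ) := by
        apply mul_le_mul_of_nonneg_left _ (abs_nonneg _)
        linarith
      linarith
    have hησ : (|u| + 1) * D ≤ η * σ := by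
      have h1 : ((|u| + 1) * D / η) ^ 2 ≤ σ ^ 2 := by
        rw [hσ2]
        linarith
      have h2 : (|u| + 1) * D / η ≤ σ := le_of_sq_le_sq h1 hσ0.le
      rw [div_le_iff₀ hη0] at h2
      linarith
    have f1 := h₁ d x H (by omega) (k1.trans g2) ((Nat.pow_le_pow_right (by omega) k1).trans g3)
      ((le_max_left _ _).trans hVmax)
    have f2 := h₂ d x H (by omega) (k2.trans g2) ((Nat.pow_le_pow_right (by omega) k2).trans g3)
      ((le_max_right _ _).trans hVmax)
    have hE : ∀ m : ℕ, |∑ p ∈ PP x, GG a p (c + m) - L / 2 - 12 * d.S x m| + |u| * |√L - σ| ≤ η * σ := by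
      intro m
      have h1 := c2' m
      have h2 : |u| * |√L - σ| ≤ |u| * D := by gcongr
      linarith
    have m1 : cnt (fun m => ∑ p ∈ PP x, GG a p (c + m) - L / 2 ≤ u * √L) 0 H ≤
        cnt (fun m => d.S x m ≤ (u + η) * √(d.V x)) 0 H := by
      refine cnt_mono (fun m h => ?_) _ _
      have h1 := hE m
      have h2 := neg_abs_le (∑ p ∈ PP x, GG a p (c + m) - L / 2 - 12 * d.S x m)
      have h3 : u * √L - u * σ ≤ |u| * |√L - σ| := by
        rw [← mul_sub, ← abs_mul]
        exact le_abs_self _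
      have h4 : 12 * d.S x m ≤ (u + η) * σ := by linarith
      rw [hσ] at h4
      linarith
    have m2 : cnt (fun m => d.S x m ≤ (u - η) * √(d.V x)) 0 H ≤
        cnt (fun m => ∑ p ∈ PP x, GG a p (c + m) - L / 2 ≤ u * √L) 0 H := by
      refine cnt_mono (fun m h => ?_) _ _
      have h1 := hE m
      have h2 := le_abs_self (∑ p ∈ PP x, GG a p (c + m) - L / 2 - 12 * d.S x m)
      have h3 : -(|u| * |√L - σ|) ≤ u * √L - u * σ := by
        rw [← mul_sub, ← abs_mul]
        exact neg_abs_le _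
      have h4 : 12 * d.S x m ≤ (u - η) * σ := by
        rw [hσ]
        linarith
      linarith
    have l1 := Phi_lip (s := u) (t := u + η) (by linarith)
    have l2 := Phi_lip (s := u - η) (t := u) (by linarith)
    have hH0 : (0 : ℝ) ≤ H := Nat.cast_nonneg _
    have t1 : Phi (u + η) * H ≤ (Phi u + η) * H := by
      apply mul_le_mul_of_nonneg_right _ hH0
      linarith
    have t2 : (Phi u - η) * H ≤ Phi (u - η) * H := by
      apply mul_le_mul_of_nonneg_right _ hH0
      linarith
    rw [abs_le] at f1 f2 ⊢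
    constructor <;> nlinarith [f1.1, f1.2, f2.1, f2.2]

end Pool.Agent.V8H64.GB
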