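import Pool.Agent.V8H64.GL.Fin

set_option autoImplicit false

/-! The uniform central limit theorem for sums of local functions. -/

namespace Pool.Agent.V8H64.GB

open Finset Filter Topology Pool.Agent.N430.CLT Pool.Agent.V8H64.GL

lemma char_bound (d : Dat) (x N K : ℕ) (g5 : 1 ≤ x) (hN0 : 0 < N) (hKe : Even K) (t : ℝ)
    (g1 : 2 * |t| + 1 ≤ √(d.V x)) :
    ‖avg N (fun m => Complex.exp ((t * (d.S x m / √(d.V x)) : ℝ) * Complex.I)) -
      Complex.exp (-((t ^ 2 / 2 : ℝ) : ℂ))‖ ≤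
      2 * (K + 1) * (x : ℝ) ^ (2 * K) / N + 4 * Real.exp ((2 * |t| + 1) ^ 2) * (1 / 2 : ℝ) ^ K +
        2 * |t| ^ 3 / √(d.V x) := by
  set u : ℝ := 2 * |t| + 1 with hu
  have hu1 : 1 ≤ u := by have := abs_nonneg t; linarith
  have hu0 : 0 < u := by linarith
  set σ := √(d.V x) with hσd
  have hσ0 : 0 < σ := by linarith
  have hσ2 : σ ^ 2 = d.V x := Real.sq_sqrt (d.V_nonneg x)
  set y := t / σ with hy
  have hyabs : |y| = |t| / σ := by rw [hy, abs_div, abs_of_pos hσ0]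
  have hy1 : |y| ≤ 1 := by
    rw [hyabs, div_le_one hσ0]
    have := abs_nonneg t
    linarith
  have efun : (fun m => Complex.exp ((t * (d.S x m / σ) : ℝ) * Complex.I)) =
      fun m => Complex.exp ((y * d.S x m : ℝ) * Complex.I) := by
    funext m
    rw [hy, show t * (d.S x m / σ) = t / σ * d.S x m by ring]
  rw [efun]
  have a1 := compare d x N K g5 hN0 hKe hy1
  have a2 := char_periodic d x hy1
  have e1 : y ^ 2 * d.V x / 2 = t ^ 2 / 2 := by
    rw [hy, ← hσ2]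
    field_simp
  rw [e1] at a2
  have a3 := abs_moment d x K (s := u / σ) (by positivity) (by rw [div_le_one hσ0]; exact g1)
  have e2 : (u / σ) ^ 2 * d.V x = u ^ 2 := by
    rw [← hσ2]
    field_simp
  rw [e2] at a3
  have a4 : 2 * (|y| ^ K / (K.factorial : ℝ) * avgP (prim x) (fun m => |d.S x m| ^ K)) ≤
      4 * Real.exp (u ^ 2) * (1 / 2 : ℝ) ^ K := by
    have h5 : |y| ≤ (1 / 2) * (u / σ) := by
      rw [hyabs, ← mul_div_assoc]
      apply div_le_div_of_nonneg_right _ hσ0.le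
      linarith
    have h6 : |y| ^ K ≤ (1 / 2 : ℝ) ^ K * (u / σ) ^ K := by
      rw [← mul_pow]
      exact pow_le_pow_left₀ (abs_nonneg _) h5 K
    have h7 : 0 ≤ avgP (prim x) (fun m => |d.S x m| ^ K) := avgP_nonneg' _ fun m => by positivity
    have h8 : (0 : ℝ) < K.factorial := by exact_mod_cast K.factorial_pos
    calc 2 * (|y| ^ K / (K.factorial : ℝ) * avgP (prim x) (fun m => |d.S x m| ^ K))
        ≤ 2 * ((1 / 2 : ℝ) ^ K * (u / σ) ^ K / (K.factorial : ℝ) *
          avgP (prim x) (fun m => |d.S x m| ^ K)) := by gcongr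
      _ = 2 * (1 / 2 : ℝ) ^ K * ((u / σ) ^ K / (K.factorial : ℝ) *
          avgP (prim x) (fun m => |d.S x m| ^ K)) := by ring
      _ ≤ 2 * (1 / 2 : ℝ) ^ K * (2 * Real.exp (u ^ 2)) := by gcongr
      _ = _ := by ring
  have a6 : 2 * |y| ^ 3 * d.V x = 2 * |t| ^ 3 / σ := by
    rw [hyabs, ← hσ2]
    field_simp
  rw [a6] at a2
  have e3 : avg N (fun m => Complex.exp ((y * d.S x m : ℝ) * Complex.I)) -
      Complex.exp (-((t ^ 2 / 2 : ℝ) : ℂ)) =
      (avg N (fun m => Complex.exp ((y * d.S x m : ℝ) * Complex.I)) -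
        avgP (prim x) (fun m => Complex.exp ((y * d.S x m : ℝ) * Complex.I))) +
      (avgP (prim x) (fun m => Complex.exp ((y * d.S x m : ℝ) * Complex.I)) -
        Complex.exp (-((t ^ 2 / 2 : ℝ) : ℂ))) := by ring
  rw [e3]
  refine (norm_add_le _ _).trans ?_
  linarith

lemma V_le (d : Dat) (x : ℕ) : d.V x ≤ x := by
  unfold Dat.V
  have h : ∀ p ∈ PP x, d.v p ≤ 1 := fun p hp => d.v_le_one (mem_PP.1 hp).2
  refine (Finset.sum_le_sum h).trans ?_
  rw [Finset.sum_const, nsmul_eq_mul, mul_one]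
  exact_mod_cast card_PP_le x

/-- **The uniform central limit theorem** -/
theorem dat_clt (u ε : ℝ) (hε : 0 < ε) : ∃ K : ℕ, 1 ≤ K ∧ ∀ (d : Dat) (x N : ℕ), 1 ≤ x → K ≤ N →
    x ^ K ≤ N → (K : ℝ) ≤ d.V x →
    |cnt (fun m => d.S x m ≤ u * √(d.V x)) 0 N - Phi u * N| ≤ ε * N := by
  classical
  by_contra hcon
  push Not at hcon
  have hcon' : ∀ n : ℕ, ∃ (d : Dat) (x N : ℕ), 1 ≤ x ∧ n + 1 ≤ N ∧ x ^ (n + 1) ≤ N ∧
      ((n + 1 : ℕ) : ℝ) ≤ d.V x ∧
      ε * N < |cnt (fun m => d.S x m ≤ u * √(d.V x)) 0 N - Phi u * N| := by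
    intro n
    obtain ⟨d, x, N, h1, h2, h3, h4, h5⟩ := hcon (n + 1) (by omega)
    exact ⟨d, x, N, h1, h2, h3, h4, h5⟩
  choose d x N hx hN hxN hV hbad using hcon'
  have hN0 : ∀ n, 0 < N n := fun n => by have := hN n; omega
  set S : ℕ → Finset ℕ := fun n => Icc 1 (N n) with hS
  have hSc : ∀ n, (S n).card = N n := by
    intro n
    rw [hS]
    simp
  have hSne : ∀ n, S n ≠ ∅ := by
    intro n h
    have h1 := hSc n
    rw [h, card_empty] at h1
    have := hN0 n
    omega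
  have hV1 : ∀ n : ℕ, (n : ℝ) + 1 ≤ (d n).V (x n) := by
    intro n
    have := hV n
    push_cast at this
    exact this
  have hx1 : ∀ n : ℕ, (n : ℝ) + 1 ≤ x n := fun n => (hV1 n).trans (V_le _ _)
  have hroot : Tendsto (fun n => √((d n).V (x n))) atTop atTop := by
    apply Real.tendsto_sqrt_atTop.comp
    apply tendsto_atTop_mono hV1
    exact tendsto_atTop_add_const_right _ _ tendsto_natCast_atTop_atTop
  have hxt : Tendsto (fun n => (x n : ℝ)) atTop atTop := by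
    apply tendsto_atTop_mono hx1
    exact tendsto_atTop_add_const_right _ _ tendsto_natCast_atTop_atTop
  set Y : ℕ → ℕ → Fin 1 → ℝ := fun n m _ => (d n).S (x n) m / √((d n).V (x n)) with hY
  have hchar : ∀ t : Fin 1 → ℝ, Tendsto (fun n =>
      (∑ m ∈ S n, Complex.exp ((∑ i, t i * Y n m i : ℝ) * Complex.I)) / (S n).card) atTop
      (𝓝 (Complex.exp (-((∑ i, t i ^ 2) / 2 : ℝ)))) := by
    intro t
    rw [Metric.tendsto_atTop]
    intro η hη
    set τ := t 0 with hτ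
    have hK0 : Tendsto (fun k : ℕ => 4 * Real.exp ((2 * |τ| + 1) ^ 2) * (1 / 2 : ℝ) ^ k) atTop (𝓝 0) := by
      have := tendsto_pow_atTop_nhds_zero_of_lt_one (r := (1 / 2 : ℝ)) (by norm_num) (by norm_num)
      simpa using this.const_mul (4 * Real.exp ((2 * |τ| + 1) ^ 2))
    obtain ⟨k, hk⟩ := (hK0.eventually (gt_mem_nhds (show (0 : ℝ) < η / 4 by positivity))).exists
    set K := 2 * k with hK
    have hKe : Even K := even_two_mul k
    have hk2 : 4 * Real.exp ((2 * |τ| + 1) ^ 2) * (1 / 2 : ℝ) ^ K < η / 4 := by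
      refine lt_of_le_of_lt ?_ hk
      apply mul_le_mul_of_nonneg_left _ (by positivity)
      exact pow_le_pow_of_le_one (by norm_num) (by norm_num) (by omega)
    have h1 := hroot.eventually_ge_atTop (2 * |τ| + 1)
    have h2 : Tendsto (fun n => 2 * |τ| ^ 3 / √((d n).V (x n))) atTop (𝓝 0) := hroot.const_div_atTop _
    have h3 : Tendsto (fun n : ℕ => 2 * ((K : ℝ) + 1) / (x n : ℝ)) atTop (𝓝 0) :=
      tendsto_const_nhds.div_atTop hxt
    have hev := ((h1.and (h2.eventually (gt_mem_nhds (show (0 : ℝ) < η / 4 by positivity)))).and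
      ((h3.eventually (gt_mem_nhds (show (0 : ℝ) < η / 4 by positivity))).and
      (eventually_ge_atTop (2 * K))))
    obtain ⟨n₀, hn₀⟩ := eventually_atTop.1 hev
    refine ⟨n₀, fun n hn => ?_⟩
    obtain ⟨⟨g1, g2⟩, g3, g4⟩ := hn₀ n hn
    have main := char_bound (d n) (x n) (N n) K (hx n) (hN0 n) hKe τ g1
    have hx0 : (0 : ℝ) < x n := by
      have := hx n
      exact_mod_cast this
    have hx1' : (1 : ℝ) ≤ x n := by exact_mod_cast hx n
    have a5 : 2 * ((K : ℝ) + 1) * (x n : ℝ) ^ (2 * K) / (N n : ℝ) ≤ 2 * (K + 1) / x n := by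
      have h9 : ((x n : ℝ)) ^ (2 * K + 1) ≤ (N n : ℝ) := by
        have : x n ^ (2 * K + 1) ≤ N n := (Nat.pow_le_pow_right (hx n) (by omega)).trans (hxN n)
        exact_mod_cast this
      rw [div_le_div_iff₀ (by exact_mod_cast hN0 n) hx0]
      calc 2 * ((K : ℝ) + 1) * (x n : ℝ) ^ (2 * K) * x n = 2 * (K + 1) * (x n : ℝ) ^ (2 * K + 1) := by
            rw [pow_succ]; ring
        _ ≤ _ := by gcongr
    have e1 : (∑ m ∈ S n, Complex.exp ((∑ i, t i * Y n m i : ℝ) * Complex.I)) / (S n).card =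
        avg (N n) (fun m => Complex.exp ((τ * ((d n).S (x n) m / √((d n).V (x n))) : ℝ) * Complex.I)) := by
      unfold avg
      rw [hSc]
      congr 1
      refine Finset.sum_congr rfl fun m _ => ?_
      rw [Fin.sum_univ_one]
    have e2 : (∑ i, t i ^ 2) = τ ^ 2 := by rw [Fin.sum_univ_one]
    rw [e1, e2, dist_eq_norm]
    refine lt_of_le_of_lt main ?_
    linarith
  have hlev := levy S Y hSne hchar (fun _ => u)
  rw [Metric.tendsto_atTop] at hlev
  obtain ⟨n, hn⟩ := hlev ε hε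
  have h1 := hn n le_rfl
  have h2 := hbad n
  have h3 : (0 : ℝ) < N n := by exact_mod_cast hN0 n
  have hV0 : 0 < (d n).V (x n) := by
    have := hV1 n
    have h4 : (0 : ℝ) ≤ n := Nat.cast_nonneg _
    linarith
  have e2 : ((#{m ∈ S n | ∀ i, Y n m i ≤ u} : ℕ) : ℝ) =
      cnt (fun m => (d n).S (x n) m ≤ u * √((d n).V (x n))) 0 (N n) := by
    rw [← cnt_eq]
    congr 2
    ext m
    rw [mem_filter, mem_filter, hS, zero_add]
    dsimp only
    rw [mem_Icc, mem_Ioc]
    refine and_congr (by omega) ?_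
    have hq : ∀ i : Fin 1, (Y n m i ≤ u ↔ (d n).S (x n) m ≤ u * √((d n).V (x n))) := by
      intro i
      rw [hY]
      dsimp only
      rw [div_le_iff₀ (Real.sqrt_pos.2 hV0)]
    exact ⟨fun h => (hq 0).1 (h 0), fun h i => (hq i).2 h⟩
  rw [e2, hSc, Real.dist_eq, div_sub' h3.ne', abs_div, abs_of_pos h3, div_lt_iff₀ h3,
    mul_comm (N n : ℝ)] at h1
  have e3 : ∏ _i : Fin 1, Phi u = Phi u := by simp
  rw [e3] at h1
  exact absurd h1 (not_lt.2 h2.le)

lemma cnt_shift (P : ℕ → Prop) (c H : ℕ) : cnt P c H = cnt (fun m => P (c + m)) 0 H := by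
  classical
  rw [← cnt_eq, ← cnt_eq]
  have : {n ∈ Ioc c (c + H) | P n} = ({m ∈ Ioc 0 (0 + H) | P (c + m)}).image (fun m => c + m) := by
    ext n
    rw [mem_image, mem_filter, mem_Ioc]
    constructor
    · rintro ⟨h1, h2⟩
      refine ⟨n - c, ?_, by omega⟩
      rw [mem_filter, mem_Ioc]
      refine ⟨by omega, ?_⟩
      rwa [show c + (n - c) = n by omega]
    · rintro ⟨m, hm, rfl⟩
      rw [mem_filter, mem_Ioc] at hm
      exact ⟨by omega, hm.2⟩
  rw [this, card_image_of_injective _ (fun i j h => by simpa using h)]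

end Pool.Agent.V8H64.GB
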