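import Pool.Agent.V8H64.GL.Fin

set_option autoImplicit false

/-! Squarefree integers in intervals. -/

namespace Pool.Agent.V8H64.GB

open Finset Filter Topology Pool.Agent.N430.CLT Pool.Agent.V8H64.GL

theorem approx_sqf : Approx (fun n : ℕ => Squarefree n) RF := by
  classical
  intro δ hδ
  obtain ⟨w, hw⟩ := exists_nat_ge (max (2 / δ) 1)
  have hw1 : (1 : ℝ) ≤ w := (le_max_right _ _).trans hw
  have hw2 : 2 / δ ≤ w := (le_max_left _ _).trans hw
  have hw0 : 0 < w := by exact_mod_cast (lt_of_lt_of_le one_pos hw1)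
  refine ⟨WW w, WW_pos w, ?_, fun n => ∀ p : ℕ, p.Prime → p ≤ w → ¬ p ^ 2 ∣ n, ?_, w, ?_⟩
  · intro p hp hle
    have h1 : (p : ℝ) ≤ w := by
      refine hle.trans (le_trans ?_ hw2)
      exact div_le_div_of_nonneg_right (by norm_num) hδ.le
    exact (dvd_pow_self p two_ne_zero).trans (sq_dvd_WW hp (by exact_mod_cast h1))
  · intro n
    have h2 : ∀ p : ℕ, p.Prime → p ≤ w → (p ^ 2 ∣ n + WW w ↔ p ^ 2 ∣ n) := fun p hp hle =>
      (Nat.dvd_add_iff_left (sq_dvd_WW hp hle)).symm
    constructor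
    · intro h4 p hp hle h6
      exact h4 p hp hle ((h2 p hp hle).2 h6)
    · intro h4 p hp hle h6
      exact h4 p hp hle ((h2 p hp hle).1 h6)
  · intro a H hR
    have h1 := card_sq a H w hw0
      (fun n => ¬ (Squarefree n ↔ ∀ p : ℕ, p.Prime → p ≤ w → ¬ p ^ 2 ∣ n)) (by
      intro n _ _ hn
      rw [Nat.squarefree_iff_prime_squarefree] at hn
      by_contra hcon
      push Not at hcon
      apply hn
      constructor
      · intro h4 p hp _ h5
        exact h4 p hp (by rwa [← sq])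
      · intro h4 p hp h5
        rw [← sq] at h5
        rcases le_or_gt p w with h6 | h6
        · exact h4 p hp h6 h5
        · exact hcon p h6 h5)
    refine le_trans (le_of_eq ?_) (h1.trans ?_)
    · congr
    unfold RF at hR
    have hw0' : (0 : ℝ) < w := by linarith
    have hδw : 2 ≤ δ * w := by
      rw [div_le_iff₀ hδ] at hw2
      linarith
    have h2 : (H : ℝ) / w ≤ δ / 2 * H := by
      rw [div_le_iff₀ hw0']
      have : (0 : ℝ) ≤ H := Nat.cast_nonneg _
      nlinarith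
    have h3 : √((a : ℝ) + H) ≤ δ / 2 * H := by
      have h4 : 0 ≤ √((a : ℝ) + H) := Real.sqrt_nonneg _
      nlinarith
    linarith

/-- there are many squarefree numbers (fundamental discriminants give squarefree numbers, but a direct
argument is as short) -/
theorem pos_sqf : Pos (fun n : ℕ => Squarefree n) RF := by
  classical
  refine ⟨1 / 16, 256, by norm_num, fun a H hR hH => ?_⟩
  -- the odd fundamental discriminants
  set s := Nat.sqrt (a + H) with hs
  have c1 := card_class a H 4 3 (by norm_num)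
  have c2 := card_class a H 4 1 (by norm_num)
  have c4 : #{n ∈ Ioc a (a + H) | n % 4 = 3} + #{n ∈ Ioc a (a + H) | n % 4 = 1} ≤
      #{n ∈ Ioc a (a + H) | n % 2 = 1} := by
    rw [← card_union_of_disjoint]
    · apply card_le_card
      intro n hn
      rw [mem_union, mem_filter, mem_filter] at hn
      rw [mem_filter]
      rcases hn with ⟨h1, h2⟩ | ⟨h1, h2⟩
      · exact ⟨h1, by omega⟩
      · exact ⟨h1, by omega⟩
    · rw [Finset.disjoint_left]
      intro n hn hn2
      rw [mem_filter] at hn hn2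
      omega
  have d1 : {n ∈ Ioc a (a + H) | n % 2 = 1} ⊆ {n ∈ Ioc a (a + H) | Squarefree n} ∪
      (Icc 1 s).biUnion fun k => {n ∈ Ioc a (a + H) | (2 * k + 1) ^ 2 ∣ n} := by
    intro n hn
    rw [mem_filter, mem_Ioc] at hn
    rw [mem_union, mem_filter, mem_biUnion, mem_Ioc]
    by_cases hF : Squarefree n
    · exact Or.inl ⟨hn.1, hF⟩
    · right
      rw [Nat.squarefree_iff_prime_squarefree] at hF
      push Not at hF
      obtain ⟨p, hp, hd⟩ := hF
      rw [← sq] at hd
      have hodd : p % 2 = 1 := by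
        rcases hp.eq_two_or_odd with h | h
        · subst h
          omega
        · exact h
      have hp3 : 3 ≤ p := by have := hp.two_le; omega
      refine ⟨p / 2, ?_, ?_⟩
      · rw [mem_Icc]
        refine ⟨by omega, ?_⟩
        rw [hs, Nat.le_sqrt']
        have h1 := Nat.le_of_dvd (by omega) hd
        have h2 : (p / 2) ^ 2 ≤ p ^ 2 := Nat.pow_le_pow_left (Nat.div_le_self _ _) 2
        omega
      · rw [mem_filter, mem_Ioc]
        refine ⟨hn.1, ?_⟩
        have : 2 * (p / 2) + 1 = p := by omega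
        rw [this]
        exact hd
  have d2 : (#{n ∈ Ioc a (a + H) | n % 2 = 1} : ℝ) ≤ #{n ∈ Ioc a (a + H) | Squarefree n} +
      ∑ k ∈ Icc 1 s, (#{n ∈ Ioc a (a + H) | (2 * k + 1) ^ 2 ∣ n} : ℝ) := by
    have := (card_le_card d1).trans ((card_union_le _ _).trans
      (Nat.add_le_add_left card_biUnion_le _))
    exact_mod_cast this
  have d3 : ∑ k ∈ Icc 1 s, (#{n ∈ Ioc a (a + H) | (2 * k + 1) ^ 2 ∣ n} : ℝ) ≤ H / 4 + s := by
    have h3 : ∀ k ∈ Icc 1 s, (#{n ∈ Ioc a (a + H) | (2 * k + 1) ^ 2 ∣ n} : ℝ) ≤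
        H * (((2 * k + 1 : ℕ) : ℝ) ^ 2)⁻¹ + 1 := by
      intro k _
      have := card_dvd a H ((2 * k + 1) ^ 2) (by positivity)
      rw [div_eq_mul_inv] at this
      push_cast at this ⊢
      exact this
    refine (Finset.sum_le_sum h3).trans ?_
    rw [Finset.sum_add_distrib, ← Finset.mul_sum, Finset.sum_const, Nat.card_Icc, nsmul_eq_mul, mul_one]
    have h4 : (H : ℝ) * ∑ k ∈ Icc 1 s, (((2 * k + 1 : ℕ) : ℝ) ^ 2)⁻¹ ≤ H * (1 / 4) := by
      gcongr
      exact tele s
    have h5 : ((s + 1 - 1 : ℕ) : ℝ) = s := by simp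
    rw [h5]
    linarith
  have hs2 : (s : ℝ) ≤ √(a + H) := by
    apply Real.le_sqrt_of_sq_le
    have := Nat.sqrt_le' (a + H)
    exact_mod_cast this
  unfold RF at hR
  push_cast at hR
  have hH' : (256 : ℝ) ≤ H := by exact_mod_cast hH
  have e1 : (H : ℝ) / 4 - 1 ≤ ((H / 4 : ℕ) : ℝ) := by
    have : H ≤ 4 * (H / 4) + 3 := by omega
    have h2 : (H : ℝ) ≤ 4 * ((H / 4 : ℕ) : ℝ) + 3 := by exact_mod_cast this
    linarith
  have e3 : ((H / 4 : ℕ) : ℝ) + ((H / 4 : ℕ) : ℝ) ≤ #{n ∈ Ioc a (a + H) | n % 2 = 1} := by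
    exact_mod_cast (Nat.add_le_add c1 c2).trans c4
  refine le_trans (b := (#{n ∈ Ioc a (a + H) | Squarefree n} : ℝ)) (by linarith) (le_of_eq ?_)
  congr

end Pool.Agent.V8H64.GB
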