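import Pool.Agent.H491R4.TW1
import Pool.Agent.V8H64.GB.Sqf

set_option autoImplicit false

/-! The local factors of the product of Birch and Swinnerton-Dyer of quadratic twists. -/

namespace Pool.Agent.V8H64.GB

open Finset Filter Topology Pool.Agent.N430.CLT Pool.Agent.V8H64.GL
open Pool.Agent.R459.Bsd (GG TT GG_eq GG_abs GG_crude TT_abs TT_crude ch tr tr_abs pc_eq log_le sum_p32 ch_sq ch_zero ch_abs)
open Pool.Agent.H491R4.TW (HH cc cc_crude good_twist y_gen tr_twist)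
open Pool.Agent.W263.BSD (GoodPrime pointCount)

lemma ch_eq {p : ℕ} [Fact p.Prime] (D : ℤ) : ch p (D : ZMod p) = J D p := by
  unfold ch J
  rw [← jacobiSym.legendreSym.to_jacobiSym, legendreSym]

open Classical in
/-- the local estimate -/
lemma loc {p : ℕ} (hpp : p.Prime) (hp29 : 29 ≤ p) (a b D : ℤ) :
    |HH a b p D - (cc a b p - TT a p b * J D p / p)| ≤
      57 * (1 / ((p : ℝ) * √p)) + (if (p : ℤ) ∣ D then 3 / (p : ℝ) else 0) := by
  have : Fact p.Prime := ⟨hpp⟩
  have hp0 : (0 : ℝ) < p := by exact_mod_cast hpp.pos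
  have hp1 : (1 : ℝ) ≤ p := by exact_mod_cast hpp.one_le
  have hs0 : 0 < √(p : ℝ) := Real.sqrt_pos.2 hp0
  have hs1 : 1 ≤ √(p : ℝ) := by rw [Real.one_le_sqrt]; exact hp1
  have hss : √(p : ℝ) * √(p : ℝ) = p := Real.mul_self_sqrt hp0.le
  have hsp : √(p : ℝ) ≤ p := by nlinarith
  have hpos : 0 ≤ 57 * (1 / ((p : ℝ) * √p)) + (if (p : ℤ) ∣ D then 3 / (p : ℝ) else 0) := by
    have : 0 ≤ (if (p : ℤ) ∣ D then 3 / (p : ℝ) else 0) := by split_ifs <;> positivity
    positivity
  by_cases hg : GoodPrime a b p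
  · have hT : TT a p b = tr p (a : ZMod p) (b : ZMod p) := by
      unfold TT
      rw [if_pos hg, pc_eq (by omega)]
    have hcc : cc a b p = 1 / (p : ℝ) - TT a p b ^ 2 / (2 * (p : ℝ) ^ 2) := by
      unfold cc TT
      rw [if_pos hg, if_pos hg]
    have hTa : |TT a p b| ≤ 2 * √p := by
      rw [hT]
      exact tr_abs (by omega) _ _
    set T := TT a p b with hTdef
    by_cases hD : (p : ℤ) ∣ D
    · rw [if_pos hD]
      have h1 : HH a b p D = 0 := by
        unfold HH GG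
        rw [if_neg]
        rw [good_twist]
        exact fun h => h.2 hD
      have h2 : J D p = 0 := by
        rw [← ch_eq, (ZMod.intCast_zmod_eq_zero_iff_dvd _ _).2 hD, ch_zero]
      rw [h1, h2, hcc, mul_zero, zero_div, sub_zero, zero_sub, abs_neg]
      have h3 : T ^ 2 ≤ 4 * p := by
        rw [← sq_abs]
        calc |T| ^ 2 ≤ (2 * √p) ^ 2 := pow_le_pow_left₀ (abs_nonneg _) hTa 2
          _ = 4 * p := by rw [mul_pow, Real.sq_sqrt hp0.le]; norm_num
      have h4 : T ^ 2 / (2 * (p : ℝ) ^ 2) ≤ 2 / p := by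
        rw [div_le_div_iff₀ (by positivity) hp0]
        nlinarith
      have h5 : 0 ≤ T ^ 2 / (2 * (p : ℝ) ^ 2) := by positivity
      have h6 : 0 ≤ 1 / (p : ℝ) := by positivity
      have h7 : 0 ≤ 57 * (1 / ((p : ℝ) * √p)) := by positivity
      have e : (3 : ℝ) / p = 1 / p + 2 / p := by ring
      rw [e, abs_le]
      constructor <;> linarith
    · rw [if_neg hD, add_zero]
      have hD0 : ((D : ℤ) : ZMod p) ≠ 0 := by
        rwa [Ne, ZMod.intCast_zmod_eq_zero_iff_dvd]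
      have hgt : GoodPrime (a * D ^ 2) (b * D ^ 3) p := by
        rw [good_twist]
        exact ⟨hg, hD⟩
      have h1 : HH a b p D = Real.log (1 + (1 - J D p * T) / p) := by
        unfold HH
        rw [GG_eq hp29 _ _ hgt]
        push_cast
        rw [tr_twist _ _ hD0, ch_eq, ← hT]
      set χ := J D p with hχ
      have hχ1 : |χ| ≤ 1 := abs_J_le D p
      have hχT : |χ * T| ≤ 2 * √p := by
        rw [abs_mul]
        calc |χ| * |T| ≤ 1 * (2 * √p) := mul_le_mul hχ1 hTa (abs_nonneg _) zero_le_one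
          _ = 2 * √p := one_mul _
      have hχ2 : χ ^ 2 = 1 := by
        rw [hχ, ← ch_eq, sq]
        exact ch_sq hD0
      obtain ⟨u, hu⟩ : ∃ u : ℝ, u = (1 - χ * T) / p := ⟨_, rfl⟩
      have hu1 : |u| ≤ 3 / √p ∧ |u| ≤ 1 / 2 := by rw [hu]; exact y_gen hp29 hχT
      have hcube : (3 / √(p : ℝ)) ^ 3 = 27 / (p * √p) := by
        rw [div_pow]
        congr 1
        · norm_num
        · rw [pow_succ, sq, hss]
      have h2 : |Real.log (1 + u) - (u - u ^ 2 / 2)| ≤ 54 * (1 / ((p : ℝ) * √p)) := by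
        have h6 : |u| ^ 3 ≤ 27 / (p * √p) := by
          rw [← hcube]
          exact pow_le_pow_left₀ (abs_nonneg _) hu1.1 3
        have e1 : (54 : ℝ) * (1 / (p * √p)) = 2 * (27 / (p * √p)) := by ring
        rw [e1]
        linarith [(log_le hu1.2).1]
      rw [h1, ← hu, hcc]
      have e2 : Real.log (1 + u) - (1 / (p : ℝ) - T ^ 2 / (2 * (p : ℝ) ^ 2) - T * χ / p) =
          (Real.log (1 + u) - (u - u ^ 2 / 2)) + (-(1 / (2 * (p : ℝ) ^ 2)) + χ * T / (p : ℝ) ^ 2) := by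
        have e3 : u - u ^ 2 / 2 = 1 / (p : ℝ) - χ ^ 2 * T ^ 2 / (2 * (p : ℝ) ^ 2) - T * χ / p -
            1 / (2 * (p : ℝ) ^ 2) + χ * T / (p : ℝ) ^ 2 := by
          rw [hu]
          field_simp
          ring
        rw [e3, hχ2]
        ring
      rw [e2]
      have h3 : |-(1 / (2 * (p : ℝ) ^ 2)) + χ * T / (p : ℝ) ^ 2| ≤ 3 * (1 / ((p : ℝ) * √p)) := by
        refine (abs_add_le _ _).trans ?_
        rw [abs_neg, abs_of_pos (show (0 : ℝ) < 1 / (2 * (p : ℝ) ^ 2) by positivity), abs_div,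
          abs_of_pos (show (0 : ℝ) < (p : ℝ) ^ 2 by positivity)]
        have h4 : 1 / (2 * (p : ℝ) ^ 2) ≤ 1 * (1 / ((p : ℝ) * √p)) := by
          rw [one_mul]
          apply one_div_le_one_div_of_le (by positivity)
          have : (p : ℝ) * √p ≤ p * p := mul_le_mul_of_nonneg_left hsp hp0.le
          nlinarith
        have h5 : |χ * T| / (p : ℝ) ^ 2 ≤ 2 * (1 / ((p : ℝ) * √p)) := by
          have h6 : |χ * T| / (p : ℝ) ^ 2 ≤ 2 * √p / (p : ℝ) ^ 2 := by gcongr
          refine h6.trans (le_of_eq ?_)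
          rw [mul_one_div, div_eq_div_iff (by positivity) (by positivity)]
          calc 2 * √(p : ℝ) * (p * √p) = 2 * p * (√(p : ℝ) * √p) := by ring
            _ = 2 * (p : ℝ) ^ 2 := by rw [hss]; ring
        linarith
      refine (abs_add_le _ _).trans ?_
      linarith
  · have h1 : HH a b p D = 0 := by
      unfold HH GG
      rw [if_neg]
      rw [good_twist]
      exact fun h => hg h.1
    have h2 : cc a b p = 0 := by
      unfold cc
      rw [if_neg hg]
    have h3 : TT a p b = 0 := by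
      unfold TT
      rw [if_neg hg]
    rw [h1, h2, h3, zero_mul, zero_div, sub_zero, sub_zero, abs_zero]
    exact hpos

open Classical in
/-- the total error -/
lemma total : ∃ C : ℝ, 0 ≤ C ∧ ∀ (a b D : ℤ) (x : ℕ),
    |∑ p ∈ PP x, HH a b p D - (∑ p ∈ PP x, cc a b p - ∑ p ∈ PP x, TT a p b * J D p / p)| ≤
      C + ∑ p ∈ PP x, (if (p : ℤ) ∣ D then 3 / (p : ℝ) else 0) := by
  obtain ⟨K, hK, hK2⟩ := sum_p32
  refine ⟨57 * K + 29 * 5000, by positivity, fun a b D x => ?_⟩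
  rw [← Finset.sum_sub_distrib, ← Finset.sum_sub_distrib]
  refine (Finset.abs_sum_le_sum_abs _ _).trans ?_
  have h : ∀ p ∈ PP x, |HH a b p D - (cc a b p - TT a p b * J D p / p)| ≤
      (57 * (1 / ((p : ℝ) * √p)) + (if (p : ℤ) ∣ D then 3 / (p : ℝ) else 0)) +
        (if p < 29 then 5000 else 0) := by
    intro p hp
    have hpp := (mem_PP.1 hp).2
    have hp0 : (0 : ℝ) < p := by exact_mod_cast hpp.pos
    have hp1 : (1 : ℝ) ≤ p := by exact_mod_cast hpp.one_le
    by_cases h29 : p < 29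
    · rw [if_pos h29]
      have h1 : |HH a b p D| ≤ (p : ℝ) ^ 2 := GG_crude hpp _ _
      have h2 := cc_crude hpp a b
      have h3 : |TT a p b * J D p / p| ≤ 2 * (p : ℝ) ^ 2 := by
        rw [abs_div, abs_mul, abs_of_pos hp0, div_le_iff₀ hp0]
        calc |TT a p b| * |J D p| ≤ 2 * (p : ℝ) ^ 2 * 1 :=
              mul_le_mul (TT_crude hpp a b) (abs_J_le D p) (abs_nonneg _) (by positivity)
          _ ≤ 2 * (p : ℝ) ^ 2 * p := by gcongr
      have h4 := abs_sub (HH a b p D) (cc a b p - TT a p b * J D p / p)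
      have h5 := abs_sub (cc a b p) (TT a p b * J D p / p)
      have h6 : (p : ℝ) ≤ 28 := by exact_mod_cast (by omega : p ≤ 28)
      have h7 : (p : ℝ) ^ 2 ≤ 28 ^ 2 := by gcongr
      have h8 : 0 ≤ (if (p : ℤ) ∣ D then 3 / (p : ℝ) else 0) := by split_ifs <;> positivity
      have h9 : 0 ≤ 57 * (1 / ((p : ℝ) * √p)) := by positivity
      norm_num at h7
      linarith
    · rw [if_neg h29, add_zero]
      exact loc hpp (by omega) a b D
  refine (Finset.sum_le_sum h).trans ?_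
  rw [Finset.sum_add_distrib, Finset.sum_add_distrib, ← Finset.mul_sum, ← Finset.sum_filter,
    ← Finset.sum_filter]
  have h1 := hK2 (PP x)
  have h2 : ∑ p ∈ PP x with p < 29, (5000 : ℝ) ≤ 29 * 5000 := by
    rw [Finset.sum_const, nsmul_eq_mul]
    have : #{p ∈ PP x | p < 29} ≤ 29 := by
      have h3 : {p ∈ PP x | p < 29} ⊆ range 29 := by
        intro p hp
        rw [mem_filter] at hp
        exact mem_range.2 hp.2
      exact (card_le_card h3).trans (by simp)
    have h4 : (#{p ∈ PP x | p < 29} : ℝ) ≤ 29 := by exact_mod_cast this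
    gcongr
  linarith

/-- the weights -/
lemma TT_div {p : ℕ} (hpp : p.Prime) (a b : ℤ) : |TT a p b / (2 * p)| ≤ 1 := by
  have hp0 : (0 : ℝ) < p := by exact_mod_cast hpp.pos
  have hp1 : (1 : ℝ) ≤ p := by exact_mod_cast hpp.one_le
  rw [abs_div, abs_of_pos (show (0 : ℝ) < 2 * p by positivity), div_le_one (by positivity)]
  by_cases h2 : p = 2
  · have h3 : TT a p b = 0 := by
      unfold TT
      rw [if_neg]
      rintro ⟨_, h4⟩
      apply h4
      rw [h2]
      exact Dvd.intro _ rfl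
    rw [h3, abs_zero]
    positivity
  · refine (TT_abs hpp h2 a b).trans ?_
    have : √(p : ℝ) ≤ p := by
      rw [Real.sqrt_le_left hp0.le]
      nlinarith
    linarith

open Classical in
/-- the average of the sum over the prime divisors -/
lemma div_avg (c H x : ℕ) (hx : x ≤ H) (σ : ℤ) (hσ : |σ| = 1) :
    ∑ n ∈ Ioc c (c + H), ∑ p ∈ PP x, (if (p : ℤ) ∣ σ * n then 3 / (p : ℝ) else 0) ≤ 9 * H := by
  have hdvd : ∀ (p n : ℕ), ((p : ℤ) ∣ σ * n ↔ p ∣ n) := by
    intro p n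
    rcases (abs_eq (by norm_num : (0 : ℤ) ≤ 1)).1 hσ with h3 | h3
    · rw [h3, one_mul]
      exact Int.natCast_dvd_natCast
    · rw [h3, neg_one_mul, dvd_neg]
      exact Int.natCast_dvd_natCast
  rw [Finset.sum_comm]
  have h : ∀ p ∈ PP x, ∑ n ∈ Ioc c (c + H), (if (p : ℤ) ∣ σ * n then 3 / (p : ℝ) else 0) ≤
      3 * H * ((p : ℝ) ^ 2)⁻¹ + 3 := by
    intro p hp
    have hpp := (mem_PP.1 hp).2
    have hp0 : (0 : ℝ) < p := by exact_mod_cast hpp.pos
    have hp1 : (1 : ℝ) ≤ p := by exact_mod_cast hpp.one_le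
    simp only [hdvd]
    rw [← Finset.sum_filter, Finset.sum_const, nsmul_eq_mul]
    have h1 := card_dvd c H p hpp.pos
    calc (#{n ∈ Ioc c (c + H) | p ∣ n} : ℝ) * (3 / p) ≤ (H / p + 1) * (3 / p) := by gcongr
      _ = 3 * H * ((p : ℝ) ^ 2)⁻¹ + 3 / p := by field_simp
      _ ≤ _ := by
          have : (3 : ℝ) / p ≤ 3 := div_le_self (by norm_num) hp1
          linarith
  refine (Finset.sum_le_sum h).trans ?_
  rw [Finset.sum_add_distrib, ← Finset.mul_sum, Finset.sum_const, nsmul_eq_mul]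
  have h1 : ∑ p ∈ PP x, ((p : ℝ) ^ 2)⁻¹ ≤ 2 := by
    have h2 : PP x ⊆ insert 1 (Ioc 1 x) := by
      intro p hp
      rw [mem_PP] at hp
      rw [mem_insert, mem_Ioc]
      exact Or.inr ⟨hp.2.one_lt, hp.1⟩
    refine (Finset.sum_le_sum_of_subset_of_nonneg h2 fun _ _ _ => by positivity).trans ?_
    rw [Finset.sum_insert (by simp)]
    rcases le_or_gt 1 x with h3 | h3
    · have h5 := sum_Ioc_inv_sq_le_sub (α := ℝ) one_ne_zero h3
      have : (0 : ℝ) ≤ (x : ℝ)⁻¹ := by positivity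
      norm_num at h5 ⊢
      linarith
    · rw [Finset.Ioc_eq_empty (by omega), Finset.sum_empty]
      norm_num
  have h2 : (#(PP x) : ℝ) ≤ H := by exact_mod_cast (card_PP_le x).trans hx
  have h3 : 3 * (H : ℝ) * ∑ p ∈ PP x, ((p : ℝ) ^ 2)⁻¹ ≤ 3 * H * 2 := by gcongr
  linarith

/-- perturbation of a distribution function -/
lemma perturb (Q : ℕ → Prop) (S E : ℕ → ℝ) (c H : ℕ) (u η ε σ : ℝ) (hη : 0 < η) (hσ : 0 < σ)
    (h1 : |cnt (fun n => Q n ∧ S n ≤ (u + η) * σ) c H - Phi (u + η) * cnt Q c H| ≤ ε * cnt Q c H)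
    (h2 : |cnt (fun n => Q n ∧ S n ≤ (u - η) * σ) c H - Phi (u - η) * cnt Q c H| ≤ ε * cnt Q c H)
    (h3 : ∑ n ∈ Ioc c (c + H), |E n| ≤ ε * (η * σ) * cnt Q c H) :
    |cnt (fun n => Q n ∧ S n + E n ≤ u * σ) c H - Phi u * cnt Q c H| ≤ (2 * ε + η) * cnt Q c H := by
  classical
  have hB0 : 0 ≤ cnt Q c H := Nat.cast_nonneg _
  -- the exceptions
  have hbad : cnt (fun n => η * σ < |E n|) c H ≤ ε * cnt Q c H := by
    rw [← cnt_eq]
    have h4 : (#{n ∈ Ioc c (c + H) | η * σ < |E n|} : ℝ) * (η * σ) ≤ ∑ n ∈ Ioc c (c + H), |E n| := by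
      rw [← nsmul_eq_mul, ← Finset.sum_const]
      refine le_trans (Finset.sum_le_sum fun n hn => ?_)
        (Finset.sum_le_sum_of_subset_of_nonneg (Finset.filter_subset (fun n => η * σ < |E n|) _)
          fun _ _ _ => abs_nonneg _)
      exact ((mem_filter.1 hn).2).le
    have h5 : (#{n ∈ Ioc c (c + H) | η * σ < |E n|} : ℝ) * (η * σ) ≤ ε * cnt Q c H * (η * σ) := by
      refine h4.trans (h3.trans (le_of_eq ?_))
      ring
    exact le_of_mul_le_mul_right h5 (mul_pos hη hσ)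
  have m1 : cnt (fun n => Q n ∧ S n + E n ≤ u * σ) c H ≤
      cnt (fun n => Q n ∧ S n ≤ (u + η) * σ) c H + cnt (fun n => η * σ < |E n|) c H := by
    rw [← cnt_eq, ← cnt_eq, ← cnt_eq]
    have : {n ∈ Ioc c (c + H) | Q n ∧ S n + E n ≤ u * σ} ⊆
        {n ∈ Ioc c (c + H) | Q n ∧ S n ≤ (u + η) * σ} ∪ {n ∈ Ioc c (c + H) | η * σ < |E n|} := by
      intro n hn
      rw [mem_filter] at hn
      rw [mem_union, mem_filter, mem_filter]
      by_cases h : η * σ < |E n|
      · exact Or.inr ⟨hn.1, h⟩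
      · left
        refine ⟨hn.1, hn.2.1, ?_⟩
        have h5 := neg_abs_le (E n)
        have h6 := hn.2.2
        nlinarith
    exact_mod_cast (card_le_card this).trans (card_union_le _ _)
  have m2 : cnt (fun n => Q n ∧ S n ≤ (u - η) * σ) c H ≤
      cnt (fun n => Q n ∧ S n + E n ≤ u * σ) c H + cnt (fun n => η * σ < |E n|) c H := by
    rw [← cnt_eq, ← cnt_eq, ← cnt_eq]
    have : {n ∈ Ioc c (c + H) | Q n ∧ S n ≤ (u - η) * σ} ⊆
        {n ∈ Ioc c (c + H) | Q n ∧ S n + E n ≤ u * σ} ∪ {n ∈ Ioc c (c + H) | η * σ < |E n|} := by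
      intro n hn
      rw [mem_filter] at hn
      rw [mem_union, mem_filter, mem_filter]
      by_cases h : η * σ < |E n|
      · exact Or.inr ⟨hn.1, h⟩
      · left
        refine ⟨hn.1, hn.2.1, ?_⟩
        have h5 := le_abs_self (E n)
        have h6 := hn.2.2
        nlinarith
    exact_mod_cast (card_le_card this).trans (card_union_le _ _)
  have l1 := Phi_lip (s := u) (t := u + η) (by linarith)
  have l2 := Phi_lip (s := u - η) (t := u) (by linarith)
  have t1 : Phi (u + η) * cnt Q c H ≤ (Phi u + η) * cnt Q c H := by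
    apply mul_le_mul_of_nonneg_right _ hB0
    linarith
  have t2 : (Phi u - η) * cnt Q c H ≤ Phi (u - η) * cnt Q c H := by
    apply mul_le_mul_of_nonneg_right _ hB0
    linarith
  rw [abs_le] at h1 h2 ⊢
  constructor <;> nlinarith [h1.1, h1.2, h2.1, h2.2]

end Pool.Agent.V8H64.GB
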