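import Pool.Agent.V8H64.GB.Loc
import Pool.Agent.V8H64.GB.Dc

set_option autoImplicit false

/-! Mean and variance of the local factors over the second coefficient. -/

namespace Pool.Agent.V8H64.GB

open Finset Filter Topology
open Pool.Agent.R459.Eq (mean Per)
open Pool.Agent.R459.Bsd (GG TT GG_eq GG_abs GG_per GG_crude ch tr tr_abs tr_mean tr_sq pc_eq log_le
  sum_p32 y_le good_iff bad_card sum_zmod mean_GG)
open Pool.Agent.W263.BSD (GoodPrime pointCount)

section
variable {p : ℕ}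

/-- the deviation of the local factor from `1` -/
noncomputable def yy (p : ℕ) [Fact p.Prime] (a : ℤ) (z : ZMod p) : ℝ := (1 - tr p a z) / p

/-- the bad classes -/
def Bd (p : ℕ) (a : ℤ) (z : ZMod p) : Prop := ¬ (-4 * (a : ZMod p) ^ 3 - 27 * z ^ 2) ≠ 0

open Classical in
lemma mean_phi (hpp : p.Prime) (hp29 : 29 ≤ p) [Fact p.Prime] (a : ℤ) (φ : ℝ → ℝ) :
    mean p (fun t => φ (GG a p t)) =
      (∑ z : ZMod p, φ (if Bd p a z then 0 else Real.log (1 + yy p a z))) / p := by
  unfold mean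
  congr 1
  rw [← sum_zmod (p := p) (fun z => φ (if Bd p a z then 0 else Real.log (1 + yy p a z)))]
  apply sum_congr rfl
  intro t _
  beta_reduce
  congr 1
  by_cases h : GoodPrime a t p
  · rw [GG_eq hp29 a t h, if_neg]
    · rfl
    · unfold Bd
      simp only [not_not]
      exact (good_iff hpp (by omega) a t).1 h
  · have h4 : Bd p a ((t : ℤ) : ZMod p) := fun h5 => h ((good_iff hpp (by omega) a t).2 h5)
    rw [if_pos h4]
    unfold GG
    rw [if_neg h]

open Classical in
lemma bd_card (hpp : p.Prime) (hp29 : 29 ≤ p) [Fact p.Prime] (a : ℤ) :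
    (((univ : Finset (ZMod p)).filter (fun z => Bd p a z)).card : ℝ) ≤ 2 := by
  have := bad_card hpp (by omega) (a : ZMod p)
  have h2 : ((univ : Finset (ZMod p)).filter (fun z => Bd p a z)).card ≤ 2 := by
    refine le_trans (card_le_card ?_) this
    intro z hz
    rw [mem_filter] at hz ⊢
    exact hz
  exact_mod_cast h2

lemma yy_bd (hp29 : 29 ≤ p) [Fact p.Prime] (a : ℤ) (z : ZMod p) :
    |yy p a z| ≤ 3 / √p ∧ |yy p a z| ≤ 1 / 2 := by
  have := y_le hp29 (a : ZMod p) z
  exact ⟨this.1, this.2.2⟩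

/-- the mean is of order `1 / p` -/
lemma mean_le (hpp : p.Prime) (hp29 : 29 ≤ p) (a : ℤ) : |mean p (GG a p)| ≤ 21 / p := by
  classical
  have : Fact p.Prime := ⟨hpp⟩
  have hp0 : (0 : ℝ) < p := by exact_mod_cast hpp.pos
  have hs0 : 0 < √(p : ℝ) := Real.sqrt_pos.2 hp0
  have hs1 : 1 ≤ √(p : ℝ) := by rw [Real.one_le_sqrt]; exact_mod_cast hpp.one_le
  have hss : √(p : ℝ) * √(p : ℝ) = p := Real.mul_self_sqrt hp0.le
  have h1 := mean_phi hpp hp29 a id
  have h2 : mean p (GG a p) = (∑ z : ZMod p, (if Bd p a z then 0 else Real.log (1 + yy p a z))) / p := h1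
  have hsumy : ∑ z : ZMod p, yy p a z = 1 := by
    unfold yy
    rw [← Finset.sum_div, sum_sub_distrib, tr_mean (by omega), sum_const, card_univ, ZMod.card,
      nsmul_eq_mul, mul_one, sub_zero, div_self hp0.ne']
  have he : ∀ z : ZMod p, |(if Bd p a z then 0 else Real.log (1 + yy p a z)) - yy p a z| ≤
      14 / p + (if Bd p a z then 3 else 0) := by
    intro z
    have h4 := yy_bd hp29 a z
    by_cases hb : Bd p a z
    · rw [if_pos hb, if_pos hb, zero_sub, abs_neg]
      have h5 : 3 / √(p : ℝ) ≤ 3 := div_le_self (by norm_num) hs1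
      have h6 : (0 : ℝ) ≤ 14 / p := by positivity
      linarith [h4.1]
    · rw [if_neg hb, if_neg hb, add_zero]
      have h5 := (log_le h4.2).1
      have h6 : |yy p a z| ^ 2 ≤ 9 / p := by
        calc |yy p a z| ^ 2 ≤ (3 / √p) ^ 2 := pow_le_pow_left₀ (abs_nonneg _) h4.1 2
          _ = 9 / p := by rw [div_pow, Real.sq_sqrt hp0.le]; norm_num
      have h7 : |yy p a z| ^ 3 ≤ |yy p a z| ^ 2 * (1 / 2) := by
        rw [pow_succ]
        apply mul_le_mul_of_nonneg_left h4.2 (by positivity)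
      have e : Real.log (1 + yy p a z) - yy p a z =
          (Real.log (1 + yy p a z) - (yy p a z - yy p a z ^ 2 / 2)) - yy p a z ^ 2 / 2 := by ring
      rw [e]
      refine (abs_sub _ _).trans ?_
      have h8 : |yy p a z ^ 2 / 2| = |yy p a z| ^ 2 / 2 := by
        rw [abs_div, abs_pow, abs_two]
      rw [h8]
      have h9 : (14 : ℝ) / p = 9 / p * (14 / 9) := by ring
      rw [h9]
      nlinarith
  have hsum : |∑ z : ZMod p, ((if Bd p a z then 0 else Real.log (1 + yy p a z)) - yy p a z)| ≤ 20 := by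
    refine (abs_sum_le_sum_abs _ _).trans ((sum_le_sum fun z _ => he z).trans ?_)
    rw [sum_add_distrib, sum_const, card_univ, ZMod.card, nsmul_eq_mul, ← sum_filter, sum_const,
      nsmul_eq_mul]
    have h4 := bd_card hpp hp29 a
    have h5 : (p : ℝ) * (14 / p) = 14 := by field_simp
    rw [h5]
    linarith
  rw [sum_sub_distrib, hsumy] at hsum
  rw [h2, abs_div, abs_of_pos hp0]
  apply div_le_div_of_nonneg_right _ hp0.le
  rw [abs_le] at hsum ⊢
  constructor <;> linarith [hsum.1, hsum.2]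

/-- the second moment -/
lemma sq_le' (hpp : p.Prime) (hp29 : 29 ≤ p) (a : ℤ) :
    0 ≤ mean p (fun t => GG a p t ^ 2) ∧ mean p (fun t => GG a p t ^ 2) ≤ 36 / p := by
  have hp0 : (0 : ℝ) < p := by exact_mod_cast hpp.pos
  unfold mean
  constructor
  · exact div_nonneg (sum_nonneg fun _ _ => sq_nonneg _) hp0.le
  · rw [div_le_iff₀ hp0]
    have h : ∀ t ∈ range p, GG a p (t : ℤ) ^ 2 ≤ 36 / p := by
      intro t _
      have h1 := GG_abs hpp hp29 a t
      rw [← sq_abs]
      calc |GG a p (t : ℤ)| ^ 2 ≤ (6 / √p) ^ 2 := pow_le_pow_left₀ (abs_nonneg _) h1 2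
        _ = 36 / p := by rw [div_pow, Real.sq_sqrt hp0.le]; norm_num
    refine (sum_le_sum h).trans ?_
    rw [sum_const, card_range, nsmul_eq_mul]
    exact le_of_eq (mul_comm _ _)

lemma sq_eq (hpp : p.Prime) (hp29 : 29 ≤ p) (a : ℤ) (ha : ¬ (p : ℤ) ∣ a) :
    |mean p (fun t => GG a p t ^ 2) - 1 / p| ≤ 144 * (1 / (p * √p)) := by
  classical
  have : Fact p.Prime := ⟨hpp⟩
  have hp0 : (0 : ℝ) < p := by exact_mod_cast hpp.pos
  have hp1 : (1 : ℝ) ≤ p := by exact_mod_cast hpp.one_le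
  have hs0 : 0 < √(p : ℝ) := Real.sqrt_pos.2 hp0
  have hs1 : 1 ≤ √(p : ℝ) := by rw [Real.one_le_sqrt]; exact hp1
  have hss : √(p : ℝ) * √(p : ℝ) = p := Real.mul_self_sqrt hp0.le
  have hsp : √(p : ℝ) ≤ p := by nlinarith
  have h3 : (3 : ZMod p) ≠ 0 := by
    intro h0
    have : ((3 : ℕ) : ZMod p) = 0 := by exact_mod_cast h0
    rw [ZMod.natCast_eq_zero_iff] at this
    have := Nat.le_of_dvd (by norm_num) this
    omega
  have ha' : (a : ZMod p) ≠ 0 := by
    rw [Ne, ZMod.intCast_zmod_eq_zero_iff_dvd]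
    exact ha
  have h1 := mean_phi hpp hp29 a (fun s => s ^ 2)
  rw [h1]
  have hcube : (3 / √(p : ℝ)) ^ 3 = 27 / (p * √p) := by
    rw [div_pow]
    congr 1
    · norm_num
    · rw [pow_succ, sq, hss]
  have he : ∀ z : ZMod p, |(if Bd p a z then 0 else Real.log (1 + yy p a z)) ^ 2 - yy p a z ^ 2| ≤
      122 / (p * √p) + (if Bd p a z then 9 / (p : ℝ) else 0) := by
    intro z
    have h4 := yy_bd hp29 a z
    have h6 : |yy p a z| ^ 2 ≤ 9 / p := by
      calc |yy p a z| ^ 2 ≤ (3 / √p) ^ 2 := pow_le_pow_left₀ (abs_nonneg _) h4.1 2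
        _ = 9 / p := by rw [div_pow, Real.sq_sqrt hp0.le]; norm_num
    by_cases hb : Bd p a z
    · rw [if_pos hb, if_pos hb, zero_pow two_ne_zero, zero_sub, abs_neg, abs_pow]
      have h7 : (0 : ℝ) ≤ 122 / (p * √p) := by positivity
      linarith
    · rw [if_neg hb, if_neg hb, add_zero]
      obtain ⟨h5, h5'⟩ := log_le h4.2
      set L := Real.log (1 + yy p a z)
      set y := yy p a z
      have h7 : |y| ^ 3 ≤ |y| ^ 2 * (1 / 2) := by
        rw [pow_succ]
        apply mul_le_mul_of_nonneg_left h4.2 (by positivity)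
      have h8 : |L - y| ≤ 3 / 2 * |y| ^ 2 := by
        have e : L - y = (L - (y - y ^ 2 / 2)) - y ^ 2 / 2 := by ring
        rw [e]
        refine (abs_sub _ _).trans ?_
        have h8 : |y ^ 2 / 2| = |y| ^ 2 / 2 := by
          rw [abs_div, abs_pow, abs_two]
        rw [h8]
        linarith
      have h9 : |L + y| ≤ 3 * |y| := (abs_add_le _ _).trans (by linarith)
      have e : L ^ 2 - y ^ 2 = (L - y) * (L + y) := by ring
      rw [e, abs_mul]
      calc |L - y| * |L + y| ≤ (3 / 2 * |y| ^ 2) * (3 * |y|) :=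
            mul_le_mul h8 h9 (abs_nonneg _) (by positivity)
        _ = 9 / 2 * |y| ^ 3 := by ring
        _ ≤ 9 / 2 * (27 / (p * √p)) := by
            rw [← hcube]
            gcongr
            exact h4.1
        _ ≤ 122 / (p * √p) := by
            rw [← mul_div_assoc]
            apply div_le_div_of_nonneg_right _ (by positivity)
            norm_num
  have hsum : |∑ z : ZMod p, ((if Bd p a z then 0 else Real.log (1 + yy p a z)) ^ 2 - yy p a z ^ 2)| ≤
      122 / √p + 18 / p := by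
    refine (abs_sum_le_sum_abs _ _).trans ((sum_le_sum fun z _ => he z).trans ?_)
    rw [sum_add_distrib, sum_const, card_univ, ZMod.card, nsmul_eq_mul, ← sum_filter, sum_const,
      nsmul_eq_mul]
    have h4 := bd_card hpp hp29 a
    have h5 : (p : ℝ) * (122 / (p * √p)) = 122 / √p := by field_simp
    rw [h5]
    have h6 : (0 : ℝ) ≤ 9 / p := by positivity
    have h7 := mul_le_mul_of_nonneg_right h4 h6
    have h8 : 2 * (9 / (p : ℝ)) = 18 / p := by ring
    linarith
  have hy2 : ∑ z : ZMod p, yy p a z ^ 2 = (p + ∑ z : ZMod p, tr p a z ^ 2) / p ^ 2 := by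
    have e1 : ∀ z : ZMod p, yy p a z ^ 2 = (1 - 2 * tr p a z + tr p a z ^ 2) / p ^ 2 := by
      intro z
      unfold yy
      field_simp
      ring
    rw [sum_congr rfl fun z _ => e1 z, ← sum_div, sum_add_distrib, sum_sub_distrib, ← mul_sum,
      tr_mean (by omega), sum_const, card_univ, ZMod.card, nsmul_eq_mul]
    ring
  have h4 := tr_sq (p := p) (by omega) h3 ha'
  rw [sum_sub_distrib] at hsum
  set A := ∑ z : ZMod p, (if Bd p a z then 0 else Real.log (1 + yy p a z)) ^ 2
  set Bs := ∑ z : ZMod p, tr p a z ^ 2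
  rw [hy2] at hsum
  have e2 : A / p - 1 / p = (A - (p + Bs) / p ^ 2) / p + (p + (Bs - p ^ 2)) / p ^ 3 := by
    field_simp
    ring
  rw [e2]
  refine (abs_add_le _ _).trans ?_
  have k1 : |(A - (p + Bs) / p ^ 2) / p| ≤ 140 * (1 / (p * √p)) := by
    rw [abs_div, abs_of_pos hp0, div_le_iff₀ hp0]
    refine hsum.trans ?_
    have h5 : 140 * (1 / ((p : ℝ) * √p)) * p = 140 / √p := by field_simp
    rw [h5]
    have h6 : (18 : ℝ) / p ≤ 18 / √p := div_le_div_of_nonneg_left (by norm_num) hs0 hsp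
    have h7 : (140 : ℝ) / √p = 122 / √p + 18 / √p := by ring
    linarith
  have k2 : |((p : ℝ) + (Bs - p ^ 2)) / p ^ 3| ≤ 4 * (1 / (p * √p)) := by
    rw [abs_div, abs_of_pos (show (0 : ℝ) < (p : ℝ) ^ 3 by positivity), div_le_iff₀ (by positivity)]
    have h7 : |(p : ℝ) + (Bs - p ^ 2)| ≤ 4 * p := by
      refine (abs_add_le _ _).trans ?_
      rw [abs_of_pos hp0]
      linarith
    refine h7.trans ?_
    rw [mul_one_div, div_mul_eq_mul_div, le_div_iff₀ (by positivity)]
    calc 4 * (p : ℝ) * (p * √p) ≤ 4 * p * (p * p) := by gcongr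
      _ = 4 * (p : ℝ) ^ 3 := by ring
  linarith

end

/-- a shift of the summation -/
lemma sum_shift {p : ℕ} (hpp : p.Prime) (f : ℤ → ℝ) (hf : Per p f) (c : ℤ) :
    ∑ m ∈ range p, f (c + m) = ∑ t ∈ range p, f t := by
  have : Fact p.Prime := ⟨hpp⟩
  have hval : ∀ t : ℤ, f t = f ((((t : ZMod p)).val : ℕ) : ℤ) := by
    intro t
    apply hf
    rw [← ZMod.intCast_zmod_eq_zero_iff_dvd]
    push_cast
    rw [ZMod.natCast_val, ZMod.cast_id', id, sub_self]
  have h1 := Pool.Agent.V8H64.GL.sum_range_lin (p := p) (c := c) (W := 1) (by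
    intro h
    have := Int.le_of_dvd one_pos h
    have := hpp.one_lt
    omega) (fun z => f ((z.val : ℕ) : ℤ))
  have h2 := sum_zmod (p := p) (fun z => f ((z.val : ℕ) : ℤ))
  calc ∑ m ∈ range p, f (c + m) = ∑ m ∈ range p, f ((((c + 1 * m : ℤ) : ZMod p).val : ℕ) : ℤ) := by
        refine sum_congr rfl fun m _ => ?_
        rw [one_mul]
        exact hval _
    _ = ∑ t ∈ range p, f ((((t : ℤ) : ZMod p).val : ℕ) : ℤ) := by rw [h1, h2]
    _ = _ := sum_congr rfl fun t _ => (hval t).symm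

end Pool.Agent.V8H64.GB
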